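import Pool.Agent.H988R3.DM.TwoD
import Pool.Agent.H777R4.DM.Basic

/-!
# The coefficients of the stuffle coproduct
-/

set_option autoImplicit false

namespace Pool.Agent.Y759.QS

open Pool.Agent.H777R4.DM

/-- the sum of the values of `β` over the words of the stuffle product of `u` and `v` (the letter
`k` stands for `y_{k+1}`) -/
def sf (β : List ℕ → ℚ) : List ℕ → List ℕ → ℚ
  | [], v => β v
  | a :: u, [] => β (a :: u)
  | a :: u, b :: v => sf (fun l => β (a :: l)) u (b :: v) + sf (fun l => β (b :: l)) (a :: u) v +
      sf (fun l => β ((a + b + 1) :: l)) u v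
termination_by u v => u.length + v.length

theorem sf_nil_left (β : List ℕ → ℚ) (v : List ℕ) : sf β [] v = β v := by rw [sf]

theorem sf_nil_right (β : List ℕ → ℚ) (u : List ℕ) : sf β u [] = β u := by
  cases u <;> rw [sf]

theorem sf_cons (β : List ℕ → ℚ) (a : ℕ) (u : List ℕ) (b : ℕ) (v : List ℕ) :
    sf β (a :: u) (b :: v) = sf (fun l => β (a :: l)) u (b :: v) +
      sf (fun l => β (b :: l)) (a :: u) v + sf (fun l => β ((a + b + 1) :: l)) u v := by
  rw [sf]

theorem sf_lin (n : ℕ) : ∀ (u v : List ℕ), u.length + v.length = n → ∀ (c : ℚ) (β γ : List ℕ → ℚ),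
    sf (fun l => β l + c * γ l) u v = sf β u v + c * sf γ u v := by
  induction n using Nat.strong_induction_on with
  | _ n ih =>
    intro u v hn c β γ
    cases u with
    | nil => simp only [sf_nil_left]
    | cons a u =>
      cases v with
      | nil => simp only [sf_nil_right]
      | cons b v =>
        simp only [List.length_cons] at hn
        rw [sf_cons, sf_cons, sf_cons, ih _ (by simp; omega) u (b :: v) rfl,
          ih _ (by simp; omega) (a :: u) v rfl, ih _ (by omega) u v rfl]
        ring

theorem sf_zero (n : ℕ) : ∀ (u v : List ℕ), u.length + v.length = n → ∀ (β : List ℕ → ℚ),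
    (∀ l, β l = 0) → sf β u v = 0 := by
  induction n using Nat.strong_induction_on with
  | _ n ih =>
    intro u v hn β h
    cases u with
    | nil => rw [sf_nil_left, h]
    | cons a u =>
      cases v with
      | nil => rw [sf_nil_right, h]
      | cons b v =>
        simp only [List.length_cons] at hn
        rw [sf_cons, ih _ (by simp; omega) u (b :: v) rfl _ fun l => h _,
          ih _ (by simp; omega) (a :: u) v rfl _ fun l => h _, ih _ (by omega) u v rfl _ fun l => h _]
        ring

/-- the coefficient at a pair of words -/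
noncomputable def cf (Q : AYY) (u v : List ℕ) : ℚ :=
  Q.coeff (FreeMonoid.ofList u, FreeMonoid.ofList v)

theorem cf_add (P Q : AYY) (u v : List ℕ) : cf (P + Q) u v = cf P u v + cf Q u v := by
  simp [cf]

theorem cf_smul (c : ℚ) (P : AYY) (u v : List ℕ) : cf (c • P) u v = c * cf P u v := by
  simp [cf]

theorem cf_sum {ι : Type} (s : Finset ι) (P : ι → AYY) (u v : List ℕ) :
    cf (∑ i ∈ s, P i) u v = ∑ i ∈ s, cf (P i) u v := by
  classical
  induction s using Finset.induction_on with
  | empty => simp [cf]
  | insert a s ha ih => rw [Finset.sum_insert ha, Finset.sum_insert ha, cf_add, ih]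

theorem cf_inl_nil (k : ℕ) (Q : AYY) (v : List ℕ) : cf (inl (wd [k]) * Q) [] v = 0 := by
  unfold cf
  rw [Pool.Agent.H988R3.DM.inl_wd, MonoidAlgebra.coeff_single_mul_of_forall_mul_ne]
  intro d h
  exact Pool.Agent.H988R3.DM.ofList_cons_ne k d.1 (congrArg Prod.fst h)

theorem cf_inl_cons (k : ℕ) (Q : AYY) (a : ℕ) (u v : List ℕ) :
    cf (inl (wd [k]) * Q) (a :: u) v = if k = a then cf Q u v else 0 := by
  unfold cf
  rw [Pool.Agent.H988R3.DM.inl_wd]
  split_ifs with h
  · subst h
    rw [MonoidAlgebra.coeff_single_mul_eq_mul_coeff (FreeMonoid.ofList u, FreeMonoid.ofList v),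
      one_mul]
    intro m' _
    constructor
    · intro h
      have h1 := congrArg (fun z => FreeMonoid.toList z.1) h
      have h2 := congrArg Prod.snd h
      simp at h1 h2
      ext1
      · exact (by rw [← h1]; rfl : m'.1 = FreeMonoid.ofList u)
      · exact h2
    · rintro rfl
      rfl
  · rw [MonoidAlgebra.coeff_single_mul_of_forall_mul_ne]
    intro d h'
    have h2 := congrArg (fun z => FreeMonoid.toList z.1) h'
    simp at h2
    exact h h2.1

theorem cf_inr_nil (k : ℕ) (Q : AYY) (u : List ℕ) : cf (inr (wd [k]) * Q) u [] = 0 := by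
  unfold cf
  rw [Pool.Agent.H988R3.DM.inr_wd, MonoidAlgebra.coeff_single_mul_of_forall_mul_ne]
  intro d h
  exact Pool.Agent.H988R3.DM.ofList_cons_ne k d.2 (congrArg Prod.snd h)

theorem cf_inr_cons (k : ℕ) (Q : AYY) (u : List ℕ) (a : ℕ) (v : List ℕ) :
    cf (inr (wd [k]) * Q) u (a :: v) = if k = a then cf Q u v else 0 := by
  unfold cf
  rw [Pool.Agent.H988R3.DM.inr_wd]
  split_ifs with h
  · subst h
    rw [MonoidAlgebra.coeff_single_mul_eq_mul_coeff (FreeMonoid.ofList u, FreeMonoid.ofList v),
      one_mul]
    intro m' _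
    constructor
    · intro h
      have h1 := congrArg Prod.fst h
      have h2 := congrArg (fun z => FreeMonoid.toList z.2) h
      simp at h1 h2
      ext1
      · exact h1
      · exact (by rw [← h2]; rfl : m'.2 = FreeMonoid.ofList v)
    · rintro rfl
      rfl
  · rw [MonoidAlgebra.coeff_single_mul_of_forall_mul_ne]
    intro d h'
    have h2 := congrArg (fun z => FreeMonoid.toList z.2) h'
    simp at h2
    exact h h2.1

theorem star_letter (k : ℕ) : starΔ (wd [k]) = starL k := by
  unfold starΔ
  conv_lhs => unfold wd
  rw [MonoidAlgebra.lift_of]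
  exact FreeMonoid.lift_eval_of _ _

theorem star_cons (k : ℕ) (v : List ℕ) : starΔ (wd (k :: v)) = starL k * starΔ (wd v) := by
  rw [Pool.Agent.H988R3.DM.wd_cons, map_mul, star_letter]

theorem star_nil : starΔ (wd []) = 1 := by
  have : wd ([] : List ℕ) = 1 := rfl
  rw [this, map_one]

theorem cf_one (u v : List ℕ) : cf 1 u v = if u = [] ∧ v = [] then 1 else 0 := by
  classical
  unfold cf
  rw [MonoidAlgebra.one_def, MonoidAlgebra.coeff_single, Finsupp.single_apply]
  split_ifs with h1 h2 h2
  · rfl
  · exfalso
    apply h2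
    have h3 := congrArg (fun z => FreeMonoid.toList z.1) h1
    have h4 := congrArg (fun z => FreeMonoid.toList z.2) h1
    simp at h3 h4
    exact ⟨h3, h4⟩
  · exfalso
    apply h1
    obtain ⟨rfl, rfl⟩ := h2
    rfl
  · rfl

/-- the indicator function of a word -/
def ind (w l : List ℕ) : ℚ := if w = l then 1 else 0

theorem sf_ind_cons (k : ℕ) (w : List ℕ) (p : ℕ) (u v : List ℕ) :
    sf (fun l => ind (k :: w) (p :: l)) u v = if k = p then sf (ind w) u v else 0 := by
  split_ifs with h
  · subst h
    congr 1
    funext l
    simp [ind]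
  · refine sf_zero _ u v rfl _ fun l => ?_
    simp [ind, h]

theorem cf_star_wd (w : List ℕ) : ∀ u v : List ℕ, cf (starΔ (wd w)) u v = sf (ind w) u v := by
  induction w with
  | nil =>
    intro u v
    rw [star_nil, cf_one]
    cases u with
    | nil =>
      rw [sf_nil_left]
      simp [ind, eq_comm]
    | cons a u =>
      cases v with
      | nil => rw [sf_nil_right]; simp [ind]
      | cons b v =>
        rw [sf_cons, sf_zero _ u (b :: v) rfl, sf_zero _ (a :: u) v rfl, sf_zero _ u v rfl]
        · simp
        · intro l; simp [ind]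
        · intro l; simp [ind]
        · intro l; simp [ind]
  | cons k w ih =>
    intro u v
    rw [star_cons]
    unfold H777R4.DM.starL
    rw [add_mul, add_mul, Finset.sum_mul, cf_add, cf_add, cf_sum]
    simp only [mul_assoc]
    cases u with
    | nil =>
      rw [cf_inl_nil, sf_nil_left, zero_add, Finset.sum_eq_zero fun i _ => cf_inl_nil i _ v, add_zero]
      cases v with
      | nil => rw [cf_inr_nil]; simp [ind]
      | cons b v =>
        rw [cf_inr_cons, ih, sf_nil_left]
        by_cases h : k = b <;> simp [ind, h]
    | cons a u =>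
      simp only [cf_inl_cons]
      cases v with
      | nil =>
        rw [cf_inr_nil, sf_nil_right, add_zero, Finset.sum_eq_zero, add_zero, ih, sf_nil_right]
        · by_cases h : k = a <;> simp [ind, h]
        · intro i _
          rw [cf_inr_nil]
          simp
      | cons b v =>
        simp only [cf_inr_cons]
        rw [sf_cons, sf_ind_cons, sf_ind_cons, sf_ind_cons, ih, ih]
        congr 1
        rw [Finset.sum_ite_eq']
        split_ifs with h1 h2 h3 h4
        · rw [ih]
        · exfalso; rw [Finset.mem_range] at h1; omega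
        · exfalso; rw [Finset.mem_range] at h1; omega
        · rfl
        · exfalso; apply h1; rw [Finset.mem_range]; omega
        · rfl

/-- the coefficients of `Δ_*(P)` are the sums of the coefficients of `P` over stuffle products -/
theorem cf_star (P : AY) (u v : List ℕ) : cf (starΔ P) u v = sf (co P) u v := by
  induction P using MonoidAlgebra.induction_linear with
  | zero =>
    rw [sf_zero _ u v rfl _ fun l => co_zero l]
    simp [cf]
  | add f g hf hg =>
    rw [map_add, cf_add, hf, hg]
    have h := sf_lin _ u v rfl 1 (co f) (co g)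
    rw [one_mul] at h
    rw [← h]
    congr 1
    funext l
    rw [co_add, one_mul]
  | single m r =>
    have h1 : (MonoidAlgebra.single m r : AY) = r • wd (FreeMonoid.toList m) := by
      simp [wd, MonoidAlgebra.of_apply]
    rw [h1, map_smul, cf_smul, cf_star_wd]
    have h := sf_lin _ u v rfl r (fun _ => 0) (ind (FreeMonoid.toList m))
    rw [sf_zero _ u v rfl (fun _ => 0) fun _ => rfl, zero_add] at h
    rw [← h]
    congr 1
    funext l
    rw [co_smul, co_wd, zero_add]
    rfl

theorem cf_inl (Q : AY) (u : List ℕ) (b : ℕ) (v : List ℕ) : cf (inl Q) u (b :: v) = 0 := by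
  classical
  unfold cf
  induction Q using MonoidAlgebra.induction_linear with
  | zero => simp
  | add f g hf hg => rw [map_add, MonoidAlgebra.coeff_add, Finsupp.add_apply, hf, hg, add_zero]
  | single m r =>
    unfold inl
    simp only [MonoidAlgebra.mapDomainAlgHom_apply, MonoidAlgebra.mapDomain_single,
      MonoidAlgebra.coeff_single]
    rw [Finsupp.single_apply]
    apply if_neg
    intro h
    have h2 := congrArg (fun z => FreeMonoid.toList z.2) h
    simp at h2

theorem cf_inr (Q : AY) (a : ℕ) (u v : List ℕ) : cf (inr Q) (a :: u) v = 0 := by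
  classical
  unfold cf
  induction Q using MonoidAlgebra.induction_linear with
  | zero => simp
  | add f g hf hg => rw [map_add, MonoidAlgebra.coeff_add, Finsupp.add_apply, hf, hg, add_zero]
  | single m r =>
    unfold inr
    simp only [MonoidAlgebra.mapDomainAlgHom_apply, MonoidAlgebra.mapDomain_single,
      MonoidAlgebra.coeff_single]
    rw [Finsupp.single_apply]
    apply if_neg
    intro h
    have h2 := congrArg (fun z => FreeMonoid.toList z.1) h
    simp at h2

/-- the stuffle relations of an element of `dm` -/
theorem stuffle {ψ : A} (h : IsDM ψ) (a : ℕ) (u : List ℕ) (b : ℕ) (v : List ℕ) :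
    sf (fun l => co ψ (wordX l) + corr ψ l) (a :: u) (b :: v) = 0 := by
  obtain ⟨P, hP, hs⟩ := h.star
  have h1 := cf_star P (a :: u) (b :: v)
  rw [hs, cf_add, cf_inl, cf_inr, add_zero] at h1
  rw [h1]
  congr 1
  funext l
  exact (hP l).symm

end Pool.Agent.Y759.QS
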