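import Pool.Agent.Y759.DS.QS
import Pool.Agent.Y759.DS.Star
import Pool.Agent.TH19.DS.D

/-!
# The part of an element of `dm` with the fewest letters `x₀`
-/

set_option autoImplicit false

namespace Pool.Agent.Y759.QS

open Pool.Agent.H777R4.DM

/-- `sf` vanishes if the function vanishes at the long words -/
theorem sf_long (n : ℕ) : ∀ (u v : List ℕ), u.length + v.length = n → ∀ F : List ℕ → ℚ,
    (∀ w : List ℕ, u.length ≤ w.length →
      w.sum + w.length = u.sum + u.length + (v.sum + v.length) → F w = 0) → sf F u v = 0 := by
  induction n using Nat.strong_induction_on with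
  | _ n ih =>
    intro u v hn F hF
    cases u with
    | nil => rw [sf_nil_left]; exact hF v (by simp) (by simp)
    | cons a u =>
      cases v with
      | nil => rw [sf_nil_right]; exact hF _ le_rfl (by simp)
      | cons b v =>
        simp only [List.length_cons] at hn
        rw [sf_cons, ih _ (by simp; omega) u (b :: v) rfl, ih _ (by simp; omega) (a :: u) v rfl,
          ih _ (by omega) u v rfl]
        · ring
        · intro w h1 h2
          refine hF _ (by simpa using h1) ?_
          simp at h2 ⊢
          omega
        · intro w h1 h2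
          refine hF _ ?_ ?_
          · simp at h1 ⊢
            omega
          · simp at h2 ⊢
            omega
        · intro w h1 h2
          refine hF _ (by simpa using h1) ?_
          simp at h2 ⊢
          omega

/-- `sf` vanishes if the function vanishes at the words with large sum -/
theorem sf_big (n : ℕ) : ∀ (u v : List ℕ), u.length + v.length = n → ∀ F : List ℕ → ℚ,
    (∀ w : List ℕ, u.sum + v.sum ≤ w.sum → F w = 0) → sf F u v = 0 := by
  induction n using Nat.strong_induction_on with
  | _ n ih =>
    intro u v hn F hF
    cases u with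
    | nil => rw [sf_nil_left]; exact hF v (by simp)
    | cons a u =>
      cases v with
      | nil => rw [sf_nil_right]; exact hF _ (by simp)
      | cons b v =>
        simp only [List.length_cons] at hn
        rw [sf_cons, ih _ (by simp; omega) u (b :: v) rfl, ih _ (by simp; omega) (a :: u) v rfl,
          ih _ (by omega) u v rfl]
        · ring
        · intro w h1
          refine hF _ ?_
          simp at h1 ⊢
          omega
        · intro w h1
          refine hF _ ?_
          simp at h1 ⊢
          omega
        · intro w h1
          refine hF _ ?_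
          simp at h1 ⊢
          omega

/-- if the function vanishes at the words longer than `u`, only the stuffles remain in which all
letters of `v` are added to letters of `u` -/
theorem sf_eq_st (n : ℕ) : ∀ (u v : List ℕ), u.length + v.length = n → ∀ F : List ℕ → ℚ,
    (∀ w : List ℕ, u.length < w.length →
      w.sum + w.length = u.sum + u.length + (v.sum + v.length) → F w = 0) →
    sf F u v = st F u (v.map (· + 1)) := by
  induction n using Nat.strong_induction_on with
  | _ n ih =>
    intro u v hn F hF
    cases u with
    | nil =>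
      rw [sf_nil_left]
      cases v with
      | nil => rfl
      | cons b v => exact hF _ (by simp) (by simp)
    | cons a u =>
      cases v with
      | nil => rw [sf_nil_right]; rfl
      | cons b v =>
        simp only [List.length_cons] at hn
        rw [sf_cons, ih _ (by simp; omega) u (b :: v) rfl, sf_long _ (a :: u) v rfl,
          ih _ (by omega) u v rfl, List.map_cons, st]
        · rw [add_zero, show a + (b + 1) = a + b + 1 by omega]
        · intro w h1 h2
          refine hF _ (by simpa using h1) ?_
          simp at h2 ⊢
          omega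
        · intro w h1 h2
          refine hF _ ?_ ?_
          · simp at h1 ⊢
            omega
          · simp at h2 ⊢
            omega
        · intro w h1 h2
          refine hF _ (by simpa using h1) ?_
          simp at h2 ⊢
          omega

theorem wordX_count0 (v : List ℕ) : (wordX v).count 0 = v.sum := by
  have h1 := Pool.Agent.TH19.DS.count_len (wordX v)
  rw [wordX_length, wordX_count] at h1
  omega

theorem corr_pos (ψ : A) {w : List ℕ} (hw : w.sum ≠ 0) : corr ψ w = 0 := by
  unfold corr
  rw [if_neg]
  rintro ⟨_, h⟩
  apply hw
  rw [h]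
  simp

/-- **The part with the fewest letters `x₀` is harmonic**: it is killed by the quasi-symmetric
functions of the exponents. -/
theorem harmonic {ψ : A} (h : IsDM ψ) {N m : ℕ} (hN : LenHom ψ N)
    (hm : ∀ u, co ψ u ≠ 0 → m ≤ u.count 0) (β : List ℕ) (hβ : β.length + m = N) (c : List ℕ)
    (hc : c ≠ []) (hpos : ∀ x ∈ c, 0 < x) (hsum : β.sum + c.sum = m)
    (hex : β.sum ≠ 0 ∨ c ≠ List.replicate m 1) : st (fun l => co ψ (wordX l)) β c = 0 := by
  -- the list `c` diminished by one
  obtain ⟨v, rfl⟩ : ∃ v : List ℕ, c = v.map (· + 1) := by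
    refine ⟨c.map (· - 1), ?_⟩
    rw [List.map_map]
    conv_lhs => rw [← List.map_id c]
    apply List.map_congr_left
    intro x hx
    have := hpos x hx
    simp
    omega
  have hv : ∀ v : List ℕ, (v.map (· + 1)).sum = v.sum + v.length := by
    intro v
    induction v with
    | nil => rfl
    | cons a v ih => simp [ih]; omega
  cases β with
  | nil =>
    refine st_long _ _ _ ?_
    rw [List.length_nil]
    exact List.length_pos_of_ne_nil hc
  | cons a β =>
    cases v with
    | nil => exact absurd rfl hc
    | cons b v =>
      have h1 := stuffle h a β b v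
      have h2 := sf_lin _ (a :: β) (b :: v) rfl 1 (fun l => co ψ (wordX l)) (corr ψ)
      simp only [one_mul] at h2
      rw [h2] at h1
      have h3 : sf (corr ψ) (a :: β) (b :: v) = 0 := by
        refine sf_big _ _ _ rfl _ fun w hw => corr_pos ψ ?_
        intro h0
        rw [h0] at hw
        have h4 : (a :: β).sum = 0 := by omega
        have h5 : (b :: v).sum = 0 := by omega
        rcases hex with h6 | h6
        · exact h6 h4
        · apply h6
          rw [List.eq_replicate_iff]
          rw [hv, h4, h5] at hsum
          refine ⟨by simpa using hsum, fun x hx => ?_⟩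
          rw [List.mem_map] at hx
          obtain ⟨y, hy, rfl⟩ := hx
          have := List.le_sum_of_mem hy
          omega
      rw [h3, add_zero] at h1
      rw [← h1, eq_comm]
      refine sf_eq_st _ _ _ rfl _ fun w hw hs => ?_
      by_contra hne
      have h4 := hN _ hne
      have h5 := hm _ hne
      rw [wordX_length] at h4
      rw [wordX_count0] at h5
      rw [hv] at hsum
      omega

/-- The words with `m` letters `x₀` vanish if `N ≤ 2 m`. -/
theorem lowest_zero {ψ : A} (h : IsDM ψ) {N m : ℕ} (hN : LenHom ψ N)
    (hm : ∀ u, co ψ u ≠ 0 → m ≤ u.count 0) (hNm : N ≤ 2 * m) (hmN : m ≤ N) (h2 : 2 ≤ m)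
    (a : List ℕ) (ha : a.length + m = N) (hs : a.sum = m) : co ψ (wordX a) = 0 := by
  refine qsym_zero' (N - m) m (by omega) h2 (fun l => co ψ (wordX l)) ?_ a (by omega) hs
  intro β hβ c hc hpos hsum hex
  exact harmonic h hN hm β (by omega) c hc hpos hsum hex

/-- **Elements of weight `N` without words with fewer than `N / 2` letters `x₀` vanish.** -/
theorem half {ψ : A} (h : IsDM ψ) {N : ℕ} (hN : LenHom ψ N)
    (hm : ∀ u, co ψ u ≠ 0 → N ≤ 2 * u.count 0) : ψ = 0 := by
  classical
  by_contra hne
  obtain ⟨u₀, hu₀⟩ := exists_co_ne hne
  have hex : ∃ m, ∃ u, co ψ u ≠ 0 ∧ u.count 0 = m := ⟨_, u₀, hu₀, rfl⟩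
  obtain ⟨u, hu, hum⟩ := Nat.find_spec hex
  set m := Nat.find hex with hmd
  have hmin : ∀ w, co ψ w ≠ 0 → m ≤ w.count 0 := fun w hw => Nat.find_min' hex ⟨w, hw, rfl⟩
  have hsmall := taskSmall_proof taskTwoB Pool.Agent.H352.DSH.taskTwoC ψ h u hu
  have hlen := hN u hu
  have hcl := Pool.Agent.TH19.DS.count_len u
  have h2m := hm u hu
  apply hu
  have hS : ∀ w, Pool.Agent.TH19.DS.ins 1 w (co ψ) = 0 := by
    intro w
    rw [Pool.Agent.TH19.DS.ins_eq]
    exact Pool.Agent.H352.DSH.taskTwoC ψ h.mem 1 h.c1 w
  have hT : ∀ w, Pool.Agent.TH19.DS.ins 0 w (co ψ) = 0 := by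
    intro w
    rw [Pool.Agent.TH19.DS.ins_eq]
    exact Pool.Agent.H352.DSH.taskTwoC ψ h.mem 0 h.c0 w
  refine Pool.Agent.TH19.DS.all_zero (m := m) (r := N - m) hS hT (by omega) ?_ u hum (by omega)
  intro l hl hs _
  obtain ⟨a, ha, hW⟩ := Pool.Agent.TH19.DS.exists_wordX (Pool.Agent.TH19.DS.W_end1 l)
  rw [hW]
  have h0 := Pool.Agent.TH19.DS.W_count0 l
  have h1 := Pool.Agent.TH19.DS.W_count1 l
  rw [hW, wordX_count0] at h0
  rw [hW, wordX_count] at h1
  exact lowest_zero h hN hmin (by omega) (by omega) (by omega) a (by omega) (by omega)

end Pool.Agent.Y759.QS
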