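import Pool.Agent.Y759.DS.QS2
import Pool.Agent.Y759.DS.Half

/-!
# An element of `dm` is determined by its coefficients at the ballot words
-/

set_option autoImplicit false

namespace Pool.Agent.Y759.QS

open Pool.Agent.H777R4.DM

/-- the part with one letter `x₀` -/
theorem one_zero {β : List (Fin 2) → ℚ} {r : ℕ} (hr : 2 ≤ r)
    (hS : ∀ w, Pool.Agent.TH19.DS.ins 1 w β = 0)
    (h1 : β (wordX (0 :: 1 :: List.replicate (r - 2) 0)) = 0) :
    β (Pool.Agent.TH19.DS.W [r - 1]) = 0 := by
  obtain ⟨k, rfl⟩ := Nat.exists_eq_add_of_le hr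
  have e1 : ∀ k, wordX (List.replicate k 0) = List.replicate k 1 := by
    intro k
    induction k with
    | zero => rfl
    | succ k ih => rw [List.replicate_succ, wordX, ih]; rfl
  have h2 := hS (0 :: List.replicate (k + 1) 1)
  rw [Pool.Agent.TH19.DS.ins, ← List.append_nil (List.replicate (k + 1) 1),
    Pool.Agent.TH19.DS.ins_replicate] at h2
  have e3 : β (1 :: 0 :: (List.replicate (k + 1) 1 ++ [])) = 0 := by
    rw [← h1, List.append_nil, wordX, wordX, show 2 + k - 2 = k by omega, e1]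
    rfl
  have e4 : Pool.Agent.TH19.DS.ins 1 [] (fun t => β (0 :: (List.replicate (k + 1) 1 ++ t))) =
      β (0 :: (List.replicate (k + 1) 1 ++ [1])) := rfl
  have e5 : List.replicate (k + 1 + 1) (1 : Fin 2) ++ [] = List.replicate (k + 1) 1 ++ [1] := by
    rw [List.append_nil, List.replicate_succ']
  rw [e3, e4, e5] at h2
  have e6 : Pool.Agent.TH19.DS.W [2 + k - 1] = 0 :: (List.replicate (k + 1) 1 ++ [1]) := by
    rw [show 2 + k - 1 = k + 1 by omega]
    rfl
  rw [e6]
  have h3 : ((k : ℚ) + 2) * β (0 :: (List.replicate (k + 1) 1 ++ [1])) = 0 := by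
    push_cast at h2
    linarith
  have h4 : (k : ℚ) + 2 ≠ 0 := by positivity
  exact (mul_eq_zero.1 h3).resolve_left h4

/-- **Homogeneous elements are determined by the coefficients at the ballot words.** -/
theorem ballot_hom {ψ : A} (h : IsDM ψ) {N : ℕ} (hN : LenHom ψ N)
    (hB : ∀ a : List ℕ, Bal 1 a → co ψ (wordX a) = 0) : ψ = 0 := by
  classical
  by_contra hne
  obtain ⟨u₀, hu₀⟩ := exists_co_ne hne
  have hex : ∃ m, ∃ u, co ψ u ≠ 0 ∧ u.count 0 = m := ⟨_, u₀, hu₀, rfl⟩
  obtain ⟨u, hu, hum⟩ := Nat.find_spec hex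
  set m := Nat.find hex with hmd
  have hmin : ∀ w, co ψ w ≠ 0 → m ≤ w.count 0 := fun w hw => Nat.find_min' hex ⟨w, hw, rfl⟩
  have hsmall := taskSmall_proof taskTwoB Pool.Agent.H352.DSH.taskTwoC ψ h u hu
  have hlen := hN u hu
  have hcl := Pool.Agent.TH19.DS.count_len u
  apply hu
  have hS : ∀ w, Pool.Agent.TH19.DS.ins 1 w (co ψ) = 0 := by
    intro w
    rw [Pool.Agent.TH19.DS.ins_eq]
    exact Pool.Agent.H352.DSH.taskTwoC ψ h.mem 1 h.c1 w
  have hT : ∀ w, Pool.Agent.TH19.DS.ins 0 w (co ψ) = 0 := by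
    intro w
    rw [Pool.Agent.TH19.DS.ins_eq]
    exact Pool.Agent.H352.DSH.taskTwoC ψ h.mem 0 h.c0 w
  refine Pool.Agent.TH19.DS.all_zero (m := m) (r := N - m) hS hT (by omega) ?_ u hum (by omega)
  intro l hl hs hm1
  rcases Nat.lt_or_ge m 2 with hm | hm
  · have hl1 : l.length = 1 := by omega
    obtain ⟨g, rfl⟩ := List.length_eq_one_iff.1 hl1
    have hg : g = (N - m) - 1 := by simp at hs; omega
    subst hg
    refine one_zero (by omega) hS (hB _ ?_)
    intro i hi
    rcases i with _ | _ | i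
    · simp
    · simp
    · simp [List.take_replicate]
  · obtain ⟨a, ha, hW⟩ := Pool.Agent.TH19.DS.exists_wordX (Pool.Agent.TH19.DS.W_end1 l)
    rw [hW]
    have h0 := Pool.Agent.TH19.DS.W_count0 l
    have h1 := Pool.Agent.TH19.DS.W_count1 l
    rw [hW, wordX_count0] at h0
    rw [hW, wordX_count] at h1
    refine (qsym_bal (N - m) m hm (fun l => co ψ (wordX l)) ?_).2 (fun a _ _ hb => hB a hb) a
      (by omega) (by omega)
    intro β hβ c hc hpos hsum hex
    exact harmonic h hN hmin β (by omega) c hc hpos hsum hex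

/-- **Elements of `dm` are determined by the coefficients at the ballot words.** -/
theorem ballot {ψ : A} (h : IsDM ψ) (hB : ∀ a : List ℕ, Bal 1 a → co ψ (wordX a) = 0) : ψ = 0 := by
  apply al_ext
  intro u
  have h1 : comp u.length ψ = 0 := by
    refine ballot_hom (Pool.Agent.H217R3.DMC.taskComp ψ _ h) (N := u.length) ?_ ?_
    · intro w hw
      rw [co_comp] at hw
      by_contra hne
      rw [if_neg hne] at hw
      exact hw rfl
    · intro a ha
      rw [co_comp, hB a ha, ite_self]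
  have h2 := congrArg (fun P => co P u) h1
  simp only [co_comp, if_true] at h2
  exact h2

end Pool.Agent.Y759.QS
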