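import Pool.Agent.Y759.DS.Ballot

/-!
# Ballot words
-/

set_option autoImplicit false

namespace Pool.Agent.Y759.QS

open Pool.Agent.H777R4.DM

theorem prefix_count (a : List ℕ) : ∀ k : ℕ, 0 < k → Bal k a → ∀ v : List (Fin 2),
    v <+: wordX a → v.count 0 + 1 ≤ v.count 1 + k := by
  induction a with
  | nil =>
    intro k hk _ v hv
    have : v = [] := by simpa [wordX] using hv
    subst this
    simp
    omega
  | cons x l ih =>
    intro k hk hb v hv
    have h0 : x < k := by simpa using hb 0 (by simp)
    have hb' : Bal (k + 1 - x) l := by
      intro i hi
      have := hb (i + 1) (by simpa using hi)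
      simp only [List.take_succ_cons, List.sum_cons] at this
      omega
    rw [wordX] at hv
    rcases List.prefix_or_prefix_of_prefix hv (List.prefix_append _ _) with h1 | ⟨t, rfl⟩
    · obtain ⟨h2, h3⟩ := List.prefix_replicate_iff.1 h1
      rw [h3, List.count_replicate_self, List.count_replicate]
      simp
      omega
    · have ht := (List.prefix_append_right_inj _).1 hv
      rw [List.count_append, List.count_append, List.count_replicate_self, List.count_replicate]
      cases t with
      | nil => simp; omega
      | cons y t =>
        obtain ⟨rfl, h4⟩ := List.cons_prefix_cons.1 ht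
        have h5 := ih (k + 1 - x) (by omega) hb' t h4
        simp
        omega

/-- the coefficients at the ballot words of one length -/
theorem ballot_len {ψ : A} (h : IsDM ψ) (N : ℕ)
    (hB : ∀ u : List (Fin 2), u.length = N → u.getLast? = some 1 →
      (∀ v, v <+: u → v.count 0 ≤ v.count 1) → co ψ u = 0)
    (u : List (Fin 2)) (hu : u.length = N) : co ψ u = 0 := by
  have h1 : comp N ψ = 0 := by
    refine ballot_hom (Pool.Agent.H217R3.DMC.taskComp ψ _ h) (N := N) ?_ ?_
    · intro w hw
      rw [co_comp] at hw
      by_contra hne
      rw [if_neg hne] at hw
      exact hw rfl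
    · intro a ha
      rw [co_comp]
      split_ifs with hl
      · rcases eq_or_ne a [] with rfl | hne
        · by_contra hne
          have := (taskSmall_proof taskTwoB Pool.Agent.H352.DSH.taskTwoC ψ h _ hne).1
          simp [wordX] at this
        · refine hB _ hl (Pool.Agent.TH19.DS.end1_wordX hne) fun v hv => ?_
          have := prefix_count a 1 Nat.one_pos ha v hv
          omega
      · rfl
  have h2 := congrArg (fun P => co P u) h1
  simp only [co_comp, if_pos hu, co_zero] at h2
  exact h2

end Pool.Agent.Y759.QS
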