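import Pool.Agent.Y759.DS.Gm2

/-! The coefficients of the Ihara bracket at words with two letters `x₁`. -/

set_option autoImplicit false

namespace Pool.Agent.Y759.DS

open Pool.Agent.H777R4.DM Pool.Agent.Y759.QS Pool.Agent.TH19.DS

theorem dep1 {ψ : A} (h : IsDM ψ) (l : ℕ) : ∀ k : ℕ,
    co ψ (List.replicate k 0 ++ 1 :: List.replicate l 0)
      = (-1) ^ l * ((k + l).choose l : ℚ) * co ψ (List.replicate (k + l) 0 ++ [1]) := by
  induction l with
  | zero => intro k; simp
  | succ l ih =>
    intro k
    have e := hT_of h (List.replicate k 0 ++ 1 :: List.replicate l 0)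
    rw [ins0_rep, ins_zeros, ih (k + 1)] at e
    have c1 : ((k + l + 1).choose (l + 1) : ℚ) * ((l : ℚ) + 1)
        = ((k + l + 1).choose l : ℚ) * ((k : ℚ) + 1) := by
      have := Nat.choose_succ_right_eq (k + l + 1) l
      rw [show k + l + 1 - l = k + 1 by omega] at this
      exact_mod_cast this
    rw [show k + 1 + l = k + l + 1 by ring] at e
    rw [show k + (l + 1) = k + l + 1 by ring]
    have hl : ((l : ℚ) + 1) ≠ 0 := by positivity
    apply mul_left_cancel₀ hl
    rw [pow_succ]
    linear_combination e + (-1) ^ l * co ψ (List.replicate (k + l + 1) 0 ++ [1]) * c1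

theorem co_mul (f g : A) (w : List (Fin 2)) :
    co (f * g) w = ∑ k ∈ Finset.range (w.length + 1), co f (w.take k) * co g (w.drop k) := by
  induction f using al_induction with
  | h1 l =>
    induction g using al_induction with
    | h1 l' =>
      rw [wd_mul]
      simp only [co_wd]
      by_cases h : l ++ l' = w
      · rw [if_pos h, Finset.sum_eq_single l.length]
        · rw [if_pos, if_pos]
          · simp
          · rw [← h]; simp
          · rw [← h]; simp
        · intro k _ hk
          rw [if_neg, zero_mul]
          intro h1
          apply hk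
          rw [h1, List.length_take]
          have h2 : l.length ≤ w.length := by rw [← h]; simp
          have h3 := congrArg List.length h1
          rw [List.length_take] at h3
          have h4 := Finset.mem_range.1 ‹_›
          omega
        · intro h1
          exact absurd (Finset.mem_range.2 (by rw [← h]; simp)) h1
      · rw [if_neg h]
        symm
        refine Finset.sum_eq_zero fun k _ => ?_
        by_cases h1 : l = w.take k
        · by_cases h2 : l' = w.drop k
          · exact absurd (by rw [h1, h2, List.take_append_drop]) h
          · rw [if_neg h2, mul_zero]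
        · rw [if_neg h1, zero_mul]
    | h2 P Q hP hQ =>
      rw [mul_add, co_add, hP, hQ, ← Finset.sum_add_distrib]
      refine Finset.sum_congr rfl fun k _ => ?_
      rw [co_add]
      ring
    | h3 c P hP =>
      rw [mul_smul_comm, co_smul, hP, Finset.mul_sum]
      refine Finset.sum_congr rfl fun k _ => ?_
      rw [co_smul]
      ring
  | h2 P Q hP hQ =>
    rw [add_mul, co_add, hP, hQ, ← Finset.sum_add_distrib]
    refine Finset.sum_congr rfl fun k _ => ?_
    rw [co_add]
    ring
  | h3 c P hP =>
    rw [smul_mul_assoc, co_smul, hP, Finset.mul_sum]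
    refine Finset.sum_congr rfl fun k _ => ?_
    rw [co_smul]
    ring

theorem co_mul_left {f g : A} {a : ℕ} (hf : LenHom f a) (w : List (Fin 2)) (ha : a ≤ w.length) :
    co (f * g) w = co f (w.take a) * co g (w.drop a) := by
  rw [co_mul, Finset.sum_eq_single a]
  · intro k hk hne
    by_cases h : co f (w.take k) = 0
    · rw [h, zero_mul]
    · have h1 := hf _ h
      rw [List.length_take] at h1
      have h4 := Finset.mem_range.1 hk
      exact absurd (by omega) hne
  · intro h
    exact absurd (Finset.mem_range.2 (by omega)) h

theorem lenHom_wd (l : List (Fin 2)) : LenHom (wd l : A) l.length := by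
  intro v hv
  rw [co_wd] at hv
  by_cases h : l = v
  · rw [h]
  · exact absurd (if_neg h) hv

theorem co_wd_mul (l : List (Fin 2)) (P : A) (w : List (Fin 2)) :
    co (wd l * P) (l ++ w) = co P w := by
  rw [co_mul_left (lenHom_wd l) _ (by simp)]
  simp [co_wd]

theorem co_wd_mul_ne (l : List (Fin 2)) (P : A) (w : List (Fin 2)) (hw : w.take l.length ≠ l) :
    co (wd l * P) w = 0 := by
  rw [co_mul]
  refine Finset.sum_eq_zero fun k hk => ?_
  rw [co_wd]
  by_cases h : l = w.take k
  · exfalso
    apply hw
    have h4 := Finset.mem_range.1 hk
    have : l.length = k := by rw [h, List.length_take]; omega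
    rw [this, ← h]
  · rw [if_neg h, zero_mul]

theorem co_mul_wd (l : List (Fin 2)) (P : A) (w : List (Fin 2)) :
    co (P * wd l) (w ++ l) = co P w := by
  rw [co_mul, Finset.sum_eq_single w.length]
  · simp [co_wd]
  · intro k hk hne
    rw [co_wd]
    by_cases h : l = (w ++ l).drop k
    · exfalso
      apply hne
      have h1 := congrArg List.length h
      have h4 := Finset.mem_range.1 hk
      rw [List.length_drop, List.length_append] at h1
      rw [List.length_append] at h4
      omega
    · rw [if_neg h, mul_zero]
  · intro h
    exact absurd (Finset.mem_range.2 (by simp)) h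

theorem co_mul_wd_ne (l : List (Fin 2)) (P : A) (w : List (Fin 2)) (hw : ¬ l <:+ w) :
    co (P * wd l) w = 0 := by
  rw [co_mul]
  refine Finset.sum_eq_zero fun k _ => ?_
  rw [co_wd]
  by_cases h : l = w.drop k
  · exact absurd (by rw [h]; exact List.drop_suffix _ _) hw
  · rw [if_neg h, mul_zero]

/-- the word `x₁ x₀^i x₁ x₀^j` -/
def ww (i j : ℕ) : List (Fin 2) := 1 :: (List.replicate i 0 ++ 1 :: List.replicate j 0)

theorem prodc {f g : A} (hf : IsDM f) (hg : IsDM g) {p q : ℕ} (hfl : LenHom f (p + 1))
    (hg0 : ∀ k, co g (List.replicate k 0) = 0) (i j : ℕ) (hij : i + j = p + q) :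
    co (f * g) (ww i j) = (-1) ^ p * co f (List.replicate p 0 ++ [1]) *
      ((-1) ^ j * (q.choose j : ℚ) * co g (List.replicate q 0 ++ [1])) := by
  by_cases h : p ≤ i
  · obtain ⟨s, rfl⟩ := Nat.exists_eq_add_of_le h
    have e : ww (p + s) j = (1 :: List.replicate p 0) ++
        (List.replicate s 0 ++ 1 :: List.replicate j 0) := by
      show (1 : Fin 2) :: (List.replicate (p + s) 0 ++ 1 :: List.replicate j 0) =
        1 :: (List.replicate p 0 ++ (List.replicate s 0 ++ 1 :: List.replicate j 0))
      rw [List.replicate_add, List.append_assoc]
    rw [e, co_mul_left hfl _ (by simp), List.take_left' (by simp),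
      List.drop_left' (by simp), dep1 hg, show s + j = q by omega]
    have e2 := dep1 hf p 0
    simp only [List.replicate_zero, List.nil_append, Nat.zero_add, Nat.choose_self, Nat.cast_one,
      mul_one] at e2
    rw [e2]
  · have hq : q.choose j = 0 := Nat.choose_eq_zero_of_lt (by omega)
    rw [hq]
    obtain ⟨s, hs⟩ := Nat.exists_eq_add_of_lt (not_le.1 h)
    by_cases hj : s ≤ j
    · obtain ⟨r, rfl⟩ := Nat.exists_eq_add_of_le hj
      have e : ww i (s + r) = (1 :: (List.replicate i 0 ++ 1 :: List.replicate s 0)) ++
          List.replicate r 0 := by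
        unfold ww
        rw [List.replicate_add]
        simp
      rw [e, co_mul_left hfl _ (by simp; omega), List.drop_left' (by simp; omega), hg0]
      simp
    · omega

theorem derW_zeros (f : A) (l : ℕ) : derW f (List.replicate l 0) = 0 := by
  induction l with
  | zero => rfl
  | succ l ih =>
    rw [List.replicate_succ, derW, ih]
    simp

theorem derW_bound {f : A} (hf1 : ∀ u, co f u ≠ 0 → 1 ≤ u.count 1) (u : List (Fin 2)) :
    ∀ w, co (derW f u) w ≠ 0 → u.count 1 < w.count 1 ∧ u.length ≤ w.length := by
  induction u with
  | nil =>
    intro w hw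
    exact absurd (co_zero w) hw
  | cons a u ih =>
    intro w hw
    rw [derW, co_add] at hw
    by_cases h1 : co (x a * derW f u) w = 0
    · rw [h1, add_zero] at hw
      by_cases ha : a = 1
      · subst ha
        rw [if_pos rfl] at hw
        by_cases hs : u <:+ w
        · obtain ⟨t, rfl⟩ := hs
          rw [co_mul_wd, co_sub] at hw
          have key : 2 ≤ t.count 1 := by
            by_cases h2 : co (x 1 * f) t = 0
            · rw [h2, zero_sub, neg_ne_zero] at hw
              by_cases hs2 : [1] <:+ t
              · obtain ⟨t', rfl⟩ := hs2
                have h3 : co (f * wd [1]) (t' ++ [1]) ≠ 0 := hw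
                rw [co_mul_wd] at h3
                have := hf1 _ h3
                rw [List.count_append, show ([1] : List (Fin 2)).count 1 = 1 from by decide]
                omega
              · exact absurd (co_mul_wd_ne [1] f t hs2) hw
            · by_cases hs2 : t.take 1 = [1]
              · have e : t = [1] ++ t.drop 1 := by
                  rw [← hs2, List.take_append_drop]
                rw [e] at h2
                have h3 : co (wd [1] * f) ([1] ++ t.drop 1) ≠ 0 := h2
                rw [co_wd_mul] at h3
                have := hf1 _ h3
                rw [e, List.count_append, show ([1] : List (Fin 2)).count 1 = 1 from by decide]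
                omega
              · exact absurd (co_wd_mul_ne [1] f t hs2) h2
          have hle : t.count 1 ≤ t.length := List.count_le_length
          rw [List.count_append, List.length_append, List.count_cons_self, List.length_cons]
          omega
        · exact absurd (co_mul_wd_ne u _ w hs) hw
      · rw [if_neg ha, zero_mul, co_zero] at hw
        exact absurd rfl hw
    · by_cases hs2 : w.take 1 = [a]
      · have e : w = [a] ++ w.drop 1 := by
          rw [← hs2, List.take_append_drop]
        rw [e] at h1
        have h3 : co (wd [a] * derW f u) ([a] ++ w.drop 1) ≠ 0 := h1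
        rw [co_wd_mul] at h3
        have h4 := ih _ h3
        rw [e, List.count_append, List.length_append, List.count_cons, List.length_cons]
        rw [List.count_cons, List.length_cons]
        simp only [List.count_nil, List.length_nil]
        omega
      · exact absurd (co_wd_mul_ne [a] _ w hs2) h1

theorem ww_len (i j : ℕ) : (ww i j).length = i + j + 2 := by
  unfold ww
  simp
  omega

theorem ww_count (i j : ℕ) : (ww i j).count 1 = 2 := by
  unfold ww
  simp [List.count_replicate]

theorem der_coeff {f : A} (hf1 : ∀ u, co f u ≠ 0 → 1 ≤ u.count 1) (g : A) (i j : ℕ) :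
    co (der f g) (ww i j) = ∑ l ∈ Finset.range (i + j + 2), co g (1 :: List.replicate l 0) *
      co (derW f (1 :: List.replicate l 0)) (ww i j) := by
  induction g using al_induction with
  | h1 u =>
    have e : der f (wd u) = derW f u := lext_wd _ _
    rw [e]
    simp only [co_wd]
    by_cases h : ∃ l < i + j + 2, u = 1 :: List.replicate l 0
    · obtain ⟨l, hl, rfl⟩ := h
      rw [Finset.sum_eq_single l]
      · rw [if_pos rfl, one_mul]
      · intro k _ hk
        rw [if_neg, zero_mul]
        intro h1
        apply hk
        have := congrArg List.length h1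
        simp at this
        exact this.symm
      · intro h1
        exact absurd (Finset.mem_range.2 hl) h1
    · rw [Finset.sum_eq_zero]
      · by_contra hne
        have hb := derW_bound hf1 u _ hne
        rw [ww_len, ww_count] at hb
        cases u with
        | nil => exact hne (co_zero _)
        | cons a u =>
          by_cases ha : a = 1
          · subst ha
            rw [List.count_cons_self] at hb
            have hc : u.count 1 = 0 := by omega
            apply h
            refine ⟨u.length, by simp at hb; omega, ?_⟩
            congr 1
            refine List.eq_replicate_iff.2 ⟨rfl, fun b hbm => ?_⟩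
            by_contra hb0
            have : b = 1 := by
              fin_cases b
              · exact absurd rfl hb0
              · rfl
            subst this
            exact absurd hbm (List.count_eq_zero.1 hc)
          · have e2 : derW f (a :: u) = wd [a] * derW f u := by
              rw [derW, if_neg ha, zero_mul, zero_add]
              rfl
            rw [e2] at hne
            refine hne (co_wd_mul_ne _ _ _ ?_)
            intro h5
            have : (1 : Fin 2) = a := by
              have h6 : [(1 : Fin 2)] = [a] := h5
              exact (List.cons.inj h6).1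
            exact ha this.symm
      · intro k hk
        rw [if_neg, zero_mul]
        intro h1
        exact h ⟨k, Finset.mem_range.1 hk, h1⟩
  | h2 P Q hP hQ =>
    rw [map_add, co_add, hP, hQ, ← Finset.sum_add_distrib]
    refine Finset.sum_congr rfl fun k _ => ?_
    rw [co_add]
    ring
  | h3 c P hP =>
    rw [map_smul, co_smul, hP, Finset.mul_sum]
    refine Finset.sum_congr rfl fun k _ => ?_
    rw [co_smul]
    ring

theorem derW_coeff {f : A} (hf : IsDM f) {p q i j : ℕ} (hq : Even q) (hj : Odd j)
    (hij : i + j = p + q) :
    co (derW f (1 :: List.replicate q 0)) (ww i j)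
      = - ((p.choose i : ℚ) * co f (List.replicate p 0 ++ [1])) := by
  rw [derW, if_pos rfl, derW_zeros, mul_zero, add_zero]
  by_cases h : q ≤ j
  · obtain ⟨r, rfl⟩ := Nat.exists_eq_add_of_le h
    have hr : Odd r := by
      rcases Nat.even_or_odd r with h1 | h1
      · exact absurd (hq.add h1) (Nat.not_even_iff_odd.2 hj)
      · exact h1
    have e : ww i (q + r) = ww i r ++ List.replicate q 0 := by
      show (1 : Fin 2) :: (List.replicate i 0 ++ 1 :: List.replicate (q + r) 0) =
        1 :: ((List.replicate i 0 ++ 1 :: List.replicate r 0) ++ List.replicate q 0)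
      rw [Nat.add_comm q r, List.replicate_add, List.append_assoc]
      rfl
    rw [e, co_mul_wd, co_sub]
    have e1 : co (x 1 * f) (ww i r) = co f (List.replicate i 0 ++ 1 :: List.replicate r 0) :=
      co_wd_mul [1] f _
    have e2 : co (f * x 1) (ww i r) = 0 := by
      refine co_mul_wd_ne [1] f _ ?_
      rintro ⟨t, ht⟩
      have := congrArg List.getLast? ht
      obtain ⟨r', rfl⟩ : ∃ r', r = r' + 1 := ⟨r - 1, by have := hr.pos; omega⟩
      have e3 : ww i (r' + 1) = (1 :: (List.replicate i 0 ++ 1 :: List.replicate r' 0)) ++ [0] := by
        show (1 : Fin 2) :: (List.replicate i 0 ++ 1 :: List.replicate (r' + 1) 0) = _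
        rw [List.replicate_succ']
        simp
      rw [e3, List.getLast?_append, List.getLast?_append] at this
      simp at this
    rw [e1, e2, sub_zero, dep1 hf, show i + r = p by omega, hr.neg_one_pow]
    have e4 : p.choose r = p.choose i := by
      rw [← Nat.choose_symm (show i ≤ p by omega)]
      congr 1
      omega
    rw [e4]
    ring
  · rw [co_mul_wd_ne]
    · rw [Nat.choose_eq_zero_of_lt (show p < i by omega)]
      simp
    · rintro ⟨t, ht⟩
      have := congrArg (fun l : List (Fin 2) => l.reverse[j]?) ht
      unfold ww at this
      simp [List.getElem?_append] at this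
      rw [if_pos (by omega), List.getElem?_replicate, if_pos (by omega)] at this
      simp at this

theorem ihara_coeff {f g : A} (hf : IsDM f) (hg : IsDM g)
    (hs : ∀ ψ : A, IsDM ψ → ∀ u, co ψ u ≠ 0 → 1 ≤ u.count 1)
    {p q i j : ℕ} (hp : Even p) (hq : Even q) (hfl : LenHom f (p + 1)) (hgl : LenHom g (q + 1))
    (hj : Odd j) (hij : i + j = p + q) :
    co (ihara f g) (ww i j) = co f (List.replicate p 0 ++ [1]) * co g (List.replicate q 0 ++ [1]) *
      ((p.choose j : ℚ) - (q.choose j : ℚ) + (q.choose i : ℚ) - (p.choose i : ℚ)) := by
  have h0 : ∀ ψ : A, IsDM ψ → ∀ k, co ψ (List.replicate k 0) = 0 := by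
    intro ψ hψ k
    by_contra hne
    have := hs ψ hψ _ hne
    simp [List.count_replicate] at this
  have key : ∀ {f g : A} (_ : IsDM f) (_ : IsDM g) {p q : ℕ} (_ : Even p) (_ : Even q)
      (_ : LenHom g (q + 1)) (_ : i + j = p + q),
      co (der f g) (ww i j) = - (co f (List.replicate p 0 ++ [1]) *
        co g (List.replicate q 0 ++ [1]) * (p.choose i : ℚ)) := by
    intro f g hf hg p q hp hq hgl hij
    rw [der_coeff (hs f hf), Finset.sum_eq_single q]
    · rw [derW_coeff hf hq hj hij]
      have e2 := dep1 hg q 0
      simp only [List.replicate_zero, List.nil_append, Nat.zero_add, Nat.choose_self, Nat.cast_one,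
        mul_one] at e2
      rw [e2, hq.neg_one_pow]
      ring
    · intro l _ hl
      have : co g (1 :: List.replicate l 0) = 0 := by
        by_contra hne
        have := hgl _ hne
        simp at this
        exact hl this
      rw [this, zero_mul]
    · intro h1
      exact absurd (Finset.mem_range.2 (by omega)) h1
  unfold ihara
  rw [co_sub, co_add, co_sub, prodc hf hg hfl (h0 g hg) i j hij,
    prodc (p := q) (q := p) hg hf hgl (h0 f hf) i j (by omega), key hf hg hp hq hgl hij,
    key (p := q) (q := p) hg hf hq hp hfl (by omega), hp.neg_one_pow, hq.neg_one_pow, hj.neg_one_pow]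
  ring

end Pool.Agent.Y759.DS
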