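import Mathlib

/-!
# Antisymmetric translation invariant forms in three variables
-/

set_option autoImplicit false

namespace Pool.Agent.Y759.QS

open Polynomial

/-- the formula for a translation invariant form -/
theorem reg (r : ℕ) (G : ℕ → ℕ → ℕ → ℚ)
    (hG : ∀ a b c, a + b + c + 1 = r → ((a : ℚ) + 1) * G (a + 1) b c +
      ((b : ℚ) + 1) * G a (b + 1) c + ((c : ℚ) + 1) * G a b (c + 1) = 0) :
    ∀ a b c, a + b + c = r → G a b c = (-1) ^ a *
      ∑ ij ∈ Finset.HasAntidiagonal.antidiagonal a, ((b + ij.1).choose ij.1 : ℚ) * ((c + ij.2).choose ij.2 : ℚ) *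
        G 0 (b + ij.1) (c + ij.2) := by
  intro a
  induction a with
  | zero => intro b c _; simp
  | succ a ih =>
    intro b c hr
    have h1 := hG a b c (by omega)
    rw [ih (b + 1) c (by omega), ih b (c + 1) (by omega)] at h1
    -- the weights
    have h2 : ((a : ℚ) + 1) * ∑ ij ∈ Finset.HasAntidiagonal.antidiagonal (a + 1),
        ((b + ij.1).choose ij.1 : ℚ) * ((c + ij.2).choose ij.2 : ℚ) * G 0 (b + ij.1) (c + ij.2) =
        ∑ ij ∈ Finset.HasAntidiagonal.antidiagonal (a + 1), ((ij.1 : ℚ) * ((b + ij.1).choose ij.1 : ℚ)) *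
          ((c + ij.2).choose ij.2 : ℚ) * G 0 (b + ij.1) (c + ij.2) +
        ∑ ij ∈ Finset.HasAntidiagonal.antidiagonal (a + 1), ((b + ij.1).choose ij.1 : ℚ) *
          ((ij.2 : ℚ) * ((c + ij.2).choose ij.2 : ℚ)) * G 0 (b + ij.1) (c + ij.2) := by
      rw [← Finset.sum_add_distrib, Finset.mul_sum]
      refine Finset.sum_congr rfl fun ij hij => ?_
      have h3 : ((ij.1 : ℚ) + ij.2) = (a : ℚ) + 1 := by
        have := Finset.HasAntidiagonal.mem_antidiagonal.1 hij
        exact_mod_cast this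
      rw [← h3]
      ring
    have key : ∀ n i : ℕ, ((i : ℚ) + 1) * ((n + (i + 1)).choose (i + 1) : ℚ) =
        ((n : ℚ) + 1) * ((n + 1 + i).choose i : ℚ) := by
      intro n i
      have h4 := Nat.choose_succ_right_eq (n + 1 + i) i
      rw [show n + 1 + i - i = n + 1 by omega] at h4
      rw [show n + (i + 1) = n + 1 + i by omega]
      have h5 : (((n + 1 + i).choose (i + 1) * (i + 1) : ℕ) : ℚ) =
          (((n + 1 + i).choose i * (n + 1) : ℕ) : ℚ) := by rw [h4]
      push_cast at h5
      linarith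
    rw [Finset.Nat.sum_antidiagonal_succ (n := a) (f := fun ij => ((ij.1 : ℚ) *
      ((b + ij.1).choose ij.1 : ℚ)) * ((c + ij.2).choose ij.2 : ℚ) * G 0 (b + ij.1) (c + ij.2)),
      Finset.Nat.sum_antidiagonal_succ' (n := a) (f := fun ij => ((b + ij.1).choose ij.1 : ℚ) *
      ((ij.2 : ℚ) * ((c + ij.2).choose ij.2 : ℚ)) * G 0 (b + ij.1) (c + ij.2))] at h2
    have e1 : ∑ ij ∈ Finset.HasAntidiagonal.antidiagonal a, (((ij.1 + 1 : ℕ) : ℚ) *
        ((b + (ij.1 + 1)).choose (ij.1 + 1) : ℚ)) * ((c + ij.2).choose ij.2 : ℚ) *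
          G 0 (b + (ij.1 + 1)) (c + ij.2) = ((b : ℚ) + 1) * ∑ ij ∈ Finset.HasAntidiagonal.antidiagonal a,
        ((b + 1 + ij.1).choose ij.1 : ℚ) * ((c + ij.2).choose ij.2 : ℚ) *
          G 0 (b + 1 + ij.1) (c + ij.2) := by
      rw [Finset.mul_sum]
      refine Finset.sum_congr rfl fun ij _ => ?_
      push_cast
      rw [key, show b + (ij.1 + 1) = b + 1 + ij.1 by omega]
      ring
    have e2 : ∑ ij ∈ Finset.HasAntidiagonal.antidiagonal a, ((b + ij.1).choose ij.1 : ℚ) *
        ((((ij.2 + 1 : ℕ) : ℚ)) * ((c + (ij.2 + 1)).choose (ij.2 + 1) : ℚ)) *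
          G 0 (b + ij.1) (c + (ij.2 + 1)) = ((c : ℚ) + 1) * ∑ ij ∈ Finset.HasAntidiagonal.antidiagonal a,
        ((b + ij.1).choose ij.1 : ℚ) * ((c + 1 + ij.2).choose ij.2 : ℚ) *
          G 0 (b + ij.1) (c + 1 + ij.2) := by
      rw [Finset.mul_sum]
      refine Finset.sum_congr rfl fun ij _ => ?_
      push_cast
      rw [key, show c + (ij.2 + 1) = c + 1 + ij.2 by omega]
      ring
    simp only [e1, e2] at h2
    simp only [Nat.cast_zero, zero_mul, mul_zero, zero_add, add_zero] at h2
    have h6 : ((a : ℚ) + 1) ≠ 0 := by positivity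
    apply mul_left_cancel₀ h6
    have h7 : ((a : ℚ) + 1) * ((-1) ^ (a + 1) * ∑ ij ∈ Finset.HasAntidiagonal.antidiagonal (a + 1),
        ((b + ij.1).choose ij.1 : ℚ) * ((c + ij.2).choose ij.2 : ℚ) * G 0 (b + ij.1) (c + ij.2)) =
        (-1) ^ (a + 1) * (((a : ℚ) + 1) * ∑ ij ∈ Finset.HasAntidiagonal.antidiagonal (a + 1),
        ((b + ij.1).choose ij.1 : ℚ) * ((c + ij.2).choose ij.2 : ℚ) *
          G 0 (b + ij.1) (c + ij.2)) := by ring
    rw [h7, h2, pow_succ]
    linarith

/-- the forms with `⌊r / 6⌋` vanishing coefficients vanish -/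
theorem cusp (r : ℕ) (hr : Even r) (P : ℕ → ℚ) (h1 : ∀ c ≤ r, P (r - c) = - P c)
    (h2 : ∀ c ≤ r, (-1) ^ c * ∑ l ∈ Finset.range (r + 1), (l.choose c : ℚ) * P l = - P c)
    (h0 : ∀ j < r / 6, P (2 * j + 1) = 0) : ∀ c ≤ r, P c = 0 := by
  -- the small coefficients
  have low : ∀ c, c < 2 * (r / 6) + 1 → P c = 0 := by
    intro c
    induction c using Nat.strong_induction_on with
    | _ c ih =>
      intro hc
      rcases Nat.even_or_odd' c with ⟨j, rfl | rfl⟩
      · have hcr : 2 * j ≤ r := by omega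
        have hhigh : ∀ l, r - 2 * j < l → l ≤ r → P l = 0 := by
          intro l hl hlr
          have h3 := h1 (r - l) (by omega)
          rw [show r - (r - l) = l by omega, ih (r - l) (by omega) (by omega)] at h3
          simpa using h3
        have h3 := h2 (r - 2 * j) (by omega)
        rw [Finset.sum_eq_single (r - 2 * j)] at h3
        · have h4 : Even (r - 2 * j) := by
            obtain ⟨q, hq⟩ := hr
            exact ⟨q - j, by omega⟩
          rw [h4.neg_one_pow, Nat.choose_self] at h3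
          have h5 : P (r - 2 * j) = 0 := by push_cast at h3; linarith
          have h6 := h1 (2 * j) hcr
          rw [h5] at h6
          linarith
        · intro l hl hne
          rcases Nat.lt_or_gt_of_ne hne with hlt | hgt
          · rw [Nat.choose_eq_zero_of_lt hlt]; simp
          · rw [hhigh l hgt (by rw [Finset.mem_range] at hl; omega), mul_zero]
        · intro hcon
          exact absurd (Finset.mem_range.2 (by omega)) hcon
      · exact h0 j (by omega)
  set s := 2 * (r / 6) + 1 with hs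
  let p : ℚ[X] := ∑ c ∈ Finset.range (r + 1), C (P c) * X ^ c
  have hcoeff : ∀ c, p.coeff c = if c ≤ r then P c else 0 := by
    intro c
    show (∑ c ∈ Finset.range (r + 1), C (P c) * X ^ c).coeff c = _
    rw [Polynomial.finset_sum_coeff]
    simp only [Polynomial.coeff_C_mul_X_pow]
    rw [Finset.sum_ite_eq]
    simp only [Finset.mem_range]
    split_ifs with h3 h4 h4
    · rfl
    · omega
    · omega
    · rfl
  have heval : ∀ t, p.eval t = ∑ c ∈ Finset.range (r + 1), P c * t ^ c := by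
    intro t
    show (∑ c ∈ Finset.range (r + 1), C (P c) * X ^ c).eval t = _
    rw [Polynomial.eval_finset_sum]
    simp
  suffices hp : p = 0 by
    intro c hc
    have := hcoeff c
    rw [hp, if_pos hc, Polynomial.coeff_zero] at this
    exact this.symm
  -- the symmetry `t ↦ 1 - t`
  have hcomp : p.comp (1 - X) = - p := by
    apply Polynomial.funext
    intro t
    rw [Polynomial.eval_comp, Polynomial.eval_neg, Polynomial.eval_sub, Polynomial.eval_one,
      Polynomial.eval_X, heval, heval]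
    have h3 : ∀ l ∈ Finset.range (r + 1), P l * (1 - t) ^ l =
        ∑ c ∈ Finset.range (r + 1), (-1) ^ c * ((l.choose c : ℚ) * P l) * t ^ c := by
      intro l hl
      rw [Finset.mem_range] at hl
      have h4 : (1 - t) ^ l = ∑ c ∈ Finset.range (r + 1), (-1) ^ c * (l.choose c : ℚ) * t ^ c := by
        rw [sub_eq_neg_add, add_pow]
        rw [← Finset.sum_subset (Finset.range_mono (show l + 1 ≤ r + 1 by omega))]
        · refine Finset.sum_congr rfl fun c _ => ?_
          rw [one_pow, neg_pow]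
          ring
        · intro c _ hc
          rw [Finset.mem_range, not_lt] at hc
          rw [Nat.choose_eq_zero_of_lt (by omega)]
          simp
      rw [h4, Finset.mul_sum]
      refine Finset.sum_congr rfl fun c _ => ?_
      ring
    rw [Finset.sum_congr rfl h3, Finset.sum_comm, ← Finset.sum_neg_distrib]
    refine Finset.sum_congr rfl fun c hc => ?_
    rw [← Finset.sum_mul, ← Finset.mul_sum, h2 c (by rw [Finset.mem_range] at hc; omega)]
    ring
  have hX : X ^ s ∣ p := by
    rw [Polynomial.X_pow_dvd_iff]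
    intro c hc
    rw [hcoeff]
    split_ifs
    · exact low c hc
    · rfl
  have hX1 : (X - C 1) ^ s ∣ p := by
    obtain ⟨u, hu⟩ := hX
    have h3 : p = - (1 - X) ^ s * u.comp (1 - X) := by
      have h4 := hcomp
      rw [hu, Polynomial.mul_comp, Polynomial.X_pow_comp, ← hu] at h4
      rw [neg_mul, h4, neg_neg]
    have h4 : (X - C (1 : ℚ)) ^ s ∣ (1 - X) ^ s := by
      have h5 : (1 - X : ℚ[X]) = - (X - C 1) := by simp
      rw [h5, neg_pow]
      exact Dvd.intro_left _ rfl
    rw [h3, neg_mul]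
    exact (dvd_neg.2 (h4.mul_right _))
  have hhalf : (X - C (1 / 2 : ℚ)) ∣ p := by
    rw [Polynomial.dvd_iff_isRoot, Polynomial.IsRoot.def]
    have h3 := congrArg (fun q => q.eval (1 / 2 : ℚ)) hcomp
    simp only [Polynomial.eval_comp, Polynomial.eval_neg, Polynomial.eval_sub,
      Polynomial.eval_one, Polynomial.eval_X] at h3
    norm_num at h3
    linarith
  have hneg : (X - C (-1 : ℚ)) ∣ p := by
    rw [Polynomial.dvd_iff_isRoot, Polynomial.IsRoot.def, heval]
    have h3 := Finset.sum_range_reflect (fun c => P c * (-1 : ℚ) ^ c) (r + 1)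
    have h4 : ∑ j ∈ Finset.range (r + 1), P (r + 1 - 1 - j) * (-1 : ℚ) ^ (r + 1 - 1 - j) =
        - ∑ j ∈ Finset.range (r + 1), P j * (-1 : ℚ) ^ j := by
      rw [← Finset.sum_neg_distrib]
      refine Finset.sum_congr rfl fun j hj => ?_
      rw [Finset.mem_range] at hj
      rw [show r + 1 - 1 - j = r - j by omega, h1 j (by omega)]
      have h5 : (-1 : ℚ) ^ (r - j) = (-1) ^ j := by
        rcases Nat.even_or_odd j with he | ho
        · rw [he.neg_one_pow, (hr.tsub he).neg_one_pow]
        · rw [ho.neg_one_pow, (Nat.Even.sub_odd (by omega) hr ho).neg_one_pow]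
      rw [h5]
      ring
    rw [h4] at h3
    linarith
  -- the degree
  have hdeg : p.natDegree ≤ r - s := by
    rw [Polynomial.natDegree_le_iff_coeff_eq_zero]
    intro c hc
    rw [hcoeff]
    split_ifs with h3
    · have h4 := h1 (r - c) (by omega)
      rw [show r - (r - c) = c by omega, low (r - c) (by omega)] at h4
      simpa using h4
    · rfl
  have cop : ∀ a b : ℚ, a ≠ b → IsCoprime (X - C a) (X - C b) := fun a b h =>
    Polynomial.isCoprime_X_sub_C_of_isUnit_sub (sub_ne_zero.2 h).isUnit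
  have hX' : (X - C (0 : ℚ)) ^ s ∣ p := by simpa using hX
  have d1 : (X - C (0 : ℚ)) ^ s * (X - C 1) ^ s ∣ p :=
    (IsCoprime.pow (cop 0 1 (by norm_num))).mul_dvd hX' hX1
  have d2 : (X - C (0 : ℚ)) ^ s * (X - C 1) ^ s * (X - C (1 / 2)) ∣ p :=
    IsCoprime.mul_dvd ((cop 0 (1 / 2) (by norm_num)).pow_left.mul_left
      (cop 1 (1 / 2) (by norm_num)).pow_left) d1 hhalf
  have d3 : (X - C (0 : ℚ)) ^ s * (X - C 1) ^ s * (X - C (1 / 2)) * (X - C (-1)) ∣ p :=
    IsCoprime.mul_dvd (((cop 0 (-1) (by norm_num)).pow_left.mul_left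
      (cop 1 (-1) (by norm_num)).pow_left).mul_left (cop (1 / 2) (-1) (by norm_num))) d2 hneg
  by_contra hp
  have h3 := Polynomial.natDegree_le_of_dvd d3 hp
  have m0 : ∀ a : ℚ, (X - C a).Monic := fun a => Polynomial.monic_X_sub_C a
  rw [(((m0 0).pow s).mul ((m0 1).pow s)).mul (m0 (1 / 2)) |>.natDegree_mul (m0 (-1)),
    (((m0 0).pow s).mul ((m0 1).pow s)).natDegree_mul (m0 (1 / 2)),
    ((m0 0).pow s).natDegree_mul ((m0 1).pow s), (m0 0).natDegree_pow, (m0 1).natDegree_pow] at h3
  simp only [Polynomial.natDegree_X_sub_C] at h3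
  obtain ⟨q, hq⟩ := hr
  omega

end Pool.Agent.Y759.QS
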