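import Pool.Agent.Y759.DS.Ballot

/-!
# The single-letter relations of the part with the fewest letters `x₀`
-/

set_option autoImplicit false

namespace Pool.Agent.Y759.QS

open Pool.Agent.H777R4.DM
open Pool.Agent.TH19.DS (ins sh ins_zeros ins_replicate)

/-- the sum over the lists obtained by adding `1` to an entry, with weights -/
def wI : List ℕ → (List ℕ → ℚ) → ℚ
  | [], _ => 0
  | x :: l, F => ((x : ℚ) + 1) * F ((x + 1) :: l) + wI l (fun t => F (x :: t))

theorem sh_add (k : ℕ) (a : List ℕ) : ∀ F G : List ℕ → ℚ,
    sh k a (fun l => F l + G l) = sh k a F + sh k a G := by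
  induction a with
  | nil => intro F G; simp [sh]
  | cons x a ih => intro F G; rw [sh, sh, sh, ih]; ring

theorem sh_smul (k : ℕ) (a : List ℕ) : ∀ (c : ℚ) (F : List ℕ → ℚ),
    sh k a (fun l => c * F l) = c * sh k a F := by
  induction a with
  | nil => intro c F; simp [sh]
  | cons x a ih => intro c F; rw [sh, sh, ih]; ring

theorem wI_add (a : List ℕ) : ∀ F G : List ℕ → ℚ,
    wI a (fun l => F l + G l) = wI a F + wI a G := by
  induction a with
  | nil => intro F G; simp [wI]
  | cons x a ih => intro F G; rw [wI, wI, wI, ih]; ring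

theorem wI_zero (a : List ℕ) : ∀ F : List ℕ → ℚ,
    (∀ l : List ℕ, l.length = a.length → l.sum = a.sum + 1 → F l = 0) → wI a F = 0 := by
  induction a with
  | nil => intro F _; rfl
  | cons x a ih =>
    intro F h
    rw [wI, h _ (by simp) (by simp; omega), ih]
    · ring
    · intro l h1 h2
      refine h _ (by simpa using h1) ?_
      simp only [List.sum_cons]
      omega

theorem sh_wI (j : ℕ) (a : List ℕ) : ∀ F : List ℕ → ℚ,
    sh j a (fun l => wI l F) = wI a (fun l => sh j l F) + j * sh (j + 1) a F := by
  induction a with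
  | nil => intro F; simp [wI, sh]
  | cons x a ih =>
    intro F
    have e1 : sh j (x :: a) (fun l => wI l F) =
        wI ((x + j) :: a) F + sh j a (fun t => wI (x :: t) F) := by rw [sh]
    have e2 : sh j a (fun t => wI (x :: t) F) = ((x : ℚ) + 1) * sh j a (fun t => F ((x + 1) :: t)) +
        sh j a (fun t => wI t (fun s => F (x :: s))) := by
      rw [← sh_smul, ← sh_add]
      rfl
    have e3 : wI (x :: a) (fun l => sh j l F) = ((x : ℚ) + 1) * sh j ((x + 1) :: a) F +
        wI a (fun t => sh j (x :: t) F) := by rw [wI]
    have e4 : wI a (fun t => sh j (x :: t) F) = wI a (fun t => F ((x + j) :: t)) +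
        wI a (fun t => sh j t (fun s => F (x :: s))) := by
      rw [← wI_add]
      rfl
    rw [e1, e2, e3, e4, ih, sh, sh, wI, show x + 1 + j = x + j + 1 by omega,
      show x + (j + 1) = x + j + 1 by omega]
    push_cast
    ring

theorem ins0_rep (x : ℕ) (t : List (Fin 2)) : ∀ β : List (Fin 2) → ℚ,
    ins 0 (List.replicate x 0 ++ 1 :: t) β = ((x : ℚ) + 1) * β (List.replicate (x + 1) 0 ++ 1 :: t) +
      ins 0 t (fun s => β (List.replicate x 0 ++ 1 :: s)) := by
  induction x with
  | zero => intro β; simp [ins]
  | succ x ih =>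
    intro β
    rw [List.replicate_succ, List.cons_append, ins, ih]
    have e1 : (0 : Fin 2) :: 0 :: (List.replicate x 0 ++ 1 :: t) =
        List.replicate (x + 1 + 1) 0 ++ 1 :: t := by
      rw [List.replicate_succ (n := x + 1), List.replicate_succ]; rfl
    have e2 : (0 : Fin 2) :: (List.replicate (x + 1) 0 ++ 1 :: t) =
        List.replicate (x + 1 + 1) 0 ++ 1 :: t := by
      rw [List.replicate_succ (n := x + 1)]; rfl
    rw [e1, e2]
    push_cast
    have e3 : ∀ s : List (Fin 2), (0 : Fin 2) :: (List.replicate x 0 ++ 1 :: s) =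
        0 :: List.replicate x 0 ++ 1 :: s := fun s => rfl
    simp only [e3]
    ring

theorem ins0_word (a : List ℕ) (k : ℕ) : ∀ β : List (Fin 2) → ℚ,
    ins 0 (wordX a ++ List.replicate k 0) β =
      wI a (fun l => β (wordX l ++ List.replicate k 0)) +
        ((k : ℚ) + 1) * β (wordX a ++ List.replicate (k + 1) 0) := by
  induction a with
  | nil =>
    intro β
    simp only [wordX, List.nil_append, wI]
    rw [ins_zeros]
    ring
  | cons x a ih =>
    intro β
    simp only [wordX, List.append_assoc, List.cons_append, wI]
    rw [ins0_rep, ih]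
    ring

/-- the sum over the words obtained by inserting `x₀` right before an `x₁` -/
def D1 : List (Fin 2) → (List (Fin 2) → ℚ) → ℚ
  | [], _ => 0
  | a :: w, β => (if a = 1 then β (0 :: 1 :: w) else 0) + D1 w (fun t => β (a :: t))

/-- the sum over the words obtained by inserting `x₀ x₁^n` right before an `x₀` or at the end -/
def En (n : ℕ) : List (Fin 2) → (List (Fin 2) → ℚ) → ℚ
  | [], β => β (0 :: List.replicate n 1)
  | a :: w, β => (if a = 0 then β (0 :: (List.replicate n 1 ++ 0 :: w)) else 0) +
      En n w (fun t => β (a :: t))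

theorem ins0_split (w : List (Fin 2)) : ∀ β : List (Fin 2) → ℚ,
    ins 0 w β = En 0 w β + D1 w β := by
  induction w with
  | nil => intro β; simp [ins, En, D1]
  | cons a w ih =>
    intro β
    rw [ins, ih, En, D1]
    have h : a = 0 ∨ a = 1 := by omega
    rcases h with rfl | rfl
    · simp; ring
    · simp; ring

theorem D1_rep (x : ℕ) (t : List (Fin 2)) : ∀ β : List (Fin 2) → ℚ,
    D1 (List.replicate x 0 ++ 1 :: t) β = β (List.replicate (x + 1) 0 ++ 1 :: t) +
      D1 t (fun s => β (List.replicate x 0 ++ 1 :: s)) := by
  induction x with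
  | zero => intro β; simp [D1]
  | succ x ih =>
    intro β
    rw [List.replicate_succ, List.cons_append, D1, if_neg (by decide), zero_add, ih]
    have e2 : (0 : Fin 2) :: (List.replicate (x + 1) 0 ++ 1 :: t) =
        List.replicate (x + 1 + 1) 0 ++ 1 :: t := by
      rw [List.replicate_succ (n := x + 1)]; rfl
    rw [e2]
    rfl

theorem D1_zeros (k : ℕ) : ∀ β : List (Fin 2) → ℚ, D1 (List.replicate k 0) β = 0 := by
  induction k with
  | zero => intro β; rfl
  | succ k ih =>
    intro β
    rw [List.replicate_succ, D1, if_neg (by decide), zero_add, ih]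

theorem D1_word (a : List ℕ) (k : ℕ) : ∀ β : List (Fin 2) → ℚ,
    D1 (wordX a ++ List.replicate k 0) β =
      sh 1 a (fun l => β (wordX l ++ List.replicate k 0)) := by
  induction a with
  | nil =>
    intro β
    simp only [wordX, List.nil_append, sh]
    exact D1_zeros k β
  | cons x a ih =>
    intro β
    simp only [wordX, List.append_assoc, List.cons_append, sh]
    rw [D1_rep, ih]

theorem En_add (n : ℕ) (w : List (Fin 2)) : ∀ β γ : List (Fin 2) → ℚ,
    En n w (fun t => β t + γ t) = En n w β + En n w γ := by
  induction w with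
  | nil => intro β γ; simp [En]
  | cons a w ih =>
    intro β γ
    rw [En, En, En, ih]
    split_ifs <;> ring

theorem En_zero (n : ℕ) (w : List (Fin 2)) : ∀ β : List (Fin 2) → ℚ, (∀ t, β t = 0) →
    En n w β = 0 := by
  induction w with
  | nil => intro β h; simp [En, h]
  | cons a w ih =>
    intro β h
    rw [En, ih _ (fun t => h _), h]
    simp

theorem ins1_zero (u : List (Fin 2)) : ∀ f : List (Fin 2) → ℚ,
    (∀ t : List (Fin 2), t.count 0 = u.count 0 → t.count 1 = u.count 1 + 1 → f t = 0) →
      ins 1 u f = 0 := by
  induction u with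
  | nil => intro f h; exact h _ (by simp) (by simp)
  | cons a u ih =>
    intro f h
    rw [ins, h _ (by simp) (by simp), ih, add_zero]
    intro t h0 h1
    refine h _ ?_ ?_
    · rw [List.count_cons, List.count_cons, h0]
    · rw [List.count_cons, List.count_cons, h1]; ring

/-- the commutation with the insertions of `x₁` -/
theorem En_ins (n : ℕ) (w : List (Fin 2)) : ∀ β : List (Fin 2) → ℚ,
    En n w (fun t => ins 1 t β) =
      ins 1 w (fun t => En n t β) + ((n : ℚ) + 1) * En (n + 1) w β := by
  induction w with
  | nil =>
    intro β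
    have e1 : En n [] (fun t => ins 1 t β) = ins 1 (0 :: List.replicate n 1) β := by rw [En]
    have e2 : ins 1 (0 :: List.replicate n 1) β = β (1 :: 0 :: List.replicate n 1) +
        ins 1 (List.replicate n 1 ++ []) (fun t => β (0 :: t)) := by
      rw [ins, List.append_nil]
    have e3 : ins 1 [] (fun t => β (0 :: (List.replicate n 1 ++ t))) =
        β (0 :: List.replicate (n + 1) 1) := by
      rw [ins, List.replicate_succ']
    have e4 : ins 1 [] (fun t => En n t β) = β (1 :: 0 :: List.replicate n 1) := by
      rw [ins, En, if_neg (by decide), zero_add, En]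
    rw [e1, e2, ins_replicate, e3, e4, List.append_nil, En]
    ring
  | cons a w ih =>
    intro β
    have h : a = 0 ∨ a = 1 := by omega
    rcases h with rfl | rfl
    · have e1 : En n (0 :: w) (fun t => ins 1 t β) =
          ins 1 (0 :: (List.replicate n 1 ++ 0 :: w)) β + En n w (fun t => ins 1 (0 :: t) β) := by
        rw [En, if_pos rfl]
      have e2 : ins 1 (0 :: (List.replicate n 1 ++ 0 :: w)) β =
          β (1 :: 0 :: (List.replicate n 1 ++ 0 :: w)) +
            ins 1 (List.replicate n 1 ++ 0 :: w) (fun t => β (0 :: t)) := by rw [ins]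
      have e3 : ins 1 (0 :: w) (fun t => β (0 :: (List.replicate n 1 ++ t))) =
          β (0 :: (List.replicate n 1 ++ 1 :: 0 :: w)) +
            ins 1 w (fun t => β (0 :: (List.replicate n 1 ++ 0 :: t))) := by rw [ins]
      have e4 : (0 : Fin 2) :: (List.replicate n 1 ++ 1 :: 0 :: w) =
          0 :: (List.replicate (n + 1) 1 ++ 0 :: w) := by
        rw [List.replicate_succ', List.append_assoc]; rfl
      have e5 : En n w (fun t => ins 1 (0 :: t) β) = En n w (fun t => β (1 :: 0 :: t)) +
          En n w (fun t => ins 1 t (fun s => β (0 :: s))) := by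
        rw [← En_add]; rfl
      have e6 : ins 1 (0 :: w) (fun t => En n t β) =
          En n (1 :: 0 :: w) β + ins 1 w (fun t => En n (0 :: t) β) := by rw [ins]
      have e7 : En n (1 :: 0 :: w) β = β (1 :: 0 :: (List.replicate n 1 ++ 0 :: w)) +
          En n w (fun t => β (1 :: 0 :: t)) := by
        rw [En, if_neg (by decide), zero_add, En, if_pos rfl]
      have e8 : ins 1 w (fun t => En n (0 :: t) β) =
          ins 1 w (fun t => β (0 :: (List.replicate n 1 ++ 0 :: t))) +
            ins 1 w (fun t => En n t (fun s => β (0 :: s))) := by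
        rw [← Pool.Agent.TH19.DS.ins_add]
        congr 1
      have e9 : En (n + 1) (0 :: w) β = β (0 :: (List.replicate (n + 1) 1 ++ 0 :: w)) +
          En (n + 1) w (fun s => β (0 :: s)) := by
        rw [En, if_pos rfl]
      rw [e1, e2, ins_replicate, e3, e4, e5, e6, e7, e8, e9, ih]
      ring
    · have e1 : En n (1 :: w) (fun t => ins 1 t β) = En n w (fun t => ins 1 (1 :: t) β) := by
        rw [En, if_neg (by decide), zero_add]
      have e5 : En n w (fun t => ins 1 (1 :: t) β) = En n w (fun t => β (1 :: 1 :: t)) +
          En n w (fun t => ins 1 t (fun s => β (1 :: s))) := by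
        rw [← En_add]; rfl
      have e6 : ins 1 (1 :: w) (fun t => En n t β) =
          En n (1 :: 1 :: w) β + ins 1 w (fun t => En n (1 :: t) β) := by rw [ins]
      have e7 : En n (1 :: 1 :: w) β = En n w (fun t => β (1 :: 1 :: t)) := by
        rw [En, if_neg (by decide), zero_add, En, if_neg (by decide), zero_add]
      have e8 : ins 1 w (fun t => En n (1 :: t) β) =
          ins 1 w (fun t => En n t (fun s => β (1 :: s))) := by
        congr 1
        funext t
        rw [En, if_neg (by decide), zero_add]
      have e9 : En (n + 1) (1 :: w) β = En (n + 1) w (fun s => β (1 :: s)) := by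
        rw [En, if_neg (by decide), zero_add]
      rw [e1, e5, e6, e7, e8, e9, ih]
      ring

section rel

variable {β : List (Fin 2) → ℚ} {r m : ℕ}

/-- the power sum relations with trailing letters `x₀` -/
theorem tail_zero (hT : ∀ w, ins 0 w β = 0)
    (hM : ∀ k, 1 ≤ k → ∀ a : List ℕ, a.length = r → a.sum + k = m →
      sh k a (fun l => β (wordX l)) = 0) :
    ∀ k j : ℕ, 1 ≤ j → ∀ a : List ℕ, a.length = r → a.sum + j + k = m →
      sh j a (fun l => β (wordX l ++ List.replicate k 0)) = 0 := by
  intro k
  induction k with
  | zero =>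
    intro j hj a ha hs
    have := hM j hj a ha (by omega)
    simpa using this
  | succ k ih =>
    intro j hj a ha hs
    have h1 : ∀ l : List ℕ, ((k : ℚ) + 1) * β (wordX l ++ List.replicate (k + 1) 0) =
        (-1) * wI l (fun l => β (wordX l ++ List.replicate k 0)) := by
      intro l
      have := hT (wordX l ++ List.replicate k 0)
      rw [ins0_word] at this
      linarith
    have h2 : ((k : ℚ) + 1) * sh j a (fun l => β (wordX l ++ List.replicate (k + 1) 0)) = 0 := by
      rw [← sh_smul]
      simp only [h1]
      rw [sh_smul, sh_wI, wI_zero, ih (j + 1) (by omega) a ha (by omega)]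
      · ring
      · intro l h3 h4
        exact ih j hj l (by omega) (by omega)
    have h3 : (k : ℚ) + 1 ≠ 0 := by positivity
    exact (mul_eq_zero.1 h2).resolve_left h3

/-- the single-letter relations -/
theorem E_zero (hS : ∀ w, ins 1 w β = 0) (hT : ∀ w, ins 0 w β = 0)
    (hM : ∀ k, 1 ≤ k → ∀ a : List ℕ, a.length = r → a.sum + k = m →
      sh k a (fun l => β (wordX l)) = 0) :
    ∀ (n : ℕ) (w : List (Fin 2)), w.count 0 + 1 = m → w.count 1 + n = r → En n w β = 0 := by
  intro n
  induction n with
  | zero =>
    intro w h0 h1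
    have h2 := hT w
    rw [ins0_split] at h2
    have h3 := wordX_strip w
    have h4 : D1 w β = 0 := by
      rw [← h3, D1_word]
      have h5 := congrArg (List.count 0) h3
      have h6 := congrArg (List.count 1) h3
      rw [List.count_append, List.count_replicate_self, wordX_count0] at h5
      rw [List.count_append, List.count_replicate, wordX_count] at h6
      simp at h6
      exact tail_zero hT hM _ 1 le_rfl _ (by omega) (by omega)
    rw [h4, add_zero] at h2
    exact h2
  | succ n ih =>
    intro w h0 h1
    have h2 := En_ins n w β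
    rw [En_zero n w _ hS, ins1_zero w _ fun t h3 h4 => ih t (by omega) (by omega), zero_add] at h2
    have h3 : (n : ℚ) + 1 ≠ 0 := by positivity
    exact (mul_eq_zero.1 h2.symm).resolve_left h3

end rel

end Pool.Agent.Y759.QS
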