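import Pool.Agent.Y759.DS.Cyc
import Pool.Agent.Y759.DS.Cusp

/-!
# Elements of `dm` whose words contain few letters `x₀`: the first parts
-/

set_option autoImplicit false

namespace Pool.Agent.Y759.QS

open Pool.Agent.H777R4.DM
open Pool.Agent.TH19.DS (ins sh ins_zeros ins_replicate)

theorem sh_eq_st (k : ℕ) (a : List ℕ) : ∀ F : List ℕ → ℚ, sh k a F = st F a [k] := by
  induction a with
  | nil => intro F; rfl
  | cons x a ih =>
    intro F
    rw [sh, st, st_nil, ih, add_comm]

/-- the words `x₁^a x₀ x₁^b x₀ x₁^c` -/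
def G2 (β : List (Fin 2) → ℚ) (a b c : ℕ) : ℚ :=
  β (List.replicate a 1 ++ 0 :: (List.replicate b 1 ++ 0 :: List.replicate c 1))

/-- the words `x₁^a x₀ x₁^b x₀ x₁^c x₀ x₁^d` -/
def G3 (β : List (Fin 2) → ℚ) (a b c d : ℕ) : ℚ :=
  β (List.replicate a 1 ++ 0 :: (List.replicate b 1 ++ 0 :: (List.replicate c 1 ++
    0 :: List.replicate d 1)))

theorem En_rep (n a : ℕ) (w : List (Fin 2)) : ∀ β : List (Fin 2) → ℚ,
    En n (List.replicate a 1 ++ w) β = En n w (fun t => β (List.replicate a 1 ++ t)) := by
  induction a with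
  | zero => intro β; rfl
  | succ a ih =>
    intro β
    rw [List.replicate_succ, List.cons_append, En, if_neg (by decide), zero_add, ih]
    rfl

theorem En_rep' (n a : ℕ) (β : List (Fin 2) → ℚ) :
    En n (List.replicate a 1) β = β (List.replicate a 1 ++ 0 :: List.replicate n 1) := by
  have h := En_rep n a [] β
  rw [List.append_nil] at h
  rw [h, En]

theorem En_cons0 (n : ℕ) (w : List (Fin 2)) (β : List (Fin 2) → ℚ) :
    En n (0 :: w) β = β (0 :: (List.replicate n 1 ++ 0 :: w)) + En n w (fun t => β (0 :: t)) := by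
  rw [En, if_pos rfl]

theorem En_G2 (n a b : ℕ) (β : List (Fin 2) → ℚ) :
    En n (List.replicate a 1 ++ 0 :: List.replicate b 1) β = G2 β a n b + G2 β a b n := by
  rw [En_rep, En_cons0, En_rep']
  rfl

theorem En_G3 (n a b c : ℕ) (β : List (Fin 2) → ℚ) :
    En n (List.replicate a 1 ++ 0 :: (List.replicate b 1 ++ 0 :: List.replicate c 1)) β =
      G3 β a n b c + G3 β a b n c + G3 β a b c n := by
  rw [En_rep, En_cons0, En_rep, En_cons0, En_rep', ← add_assoc]
  rfl

theorem ins1_rep (a : ℕ) (w : List (Fin 2)) (β : List (Fin 2) → ℚ) :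
    ins 1 (List.replicate a 1 ++ 0 :: w) β = ((a : ℚ) + 1) * β (List.replicate (a + 1) 1 ++ 0 :: w) +
      ins 1 w (fun t => β (List.replicate a 1 ++ 0 :: t)) := by
  rw [ins_replicate, ins]
  have e : List.replicate (a + 1) (1 : Fin 2) ++ 0 :: w = List.replicate a 1 ++ 1 :: 0 :: w := by
    rw [List.replicate_succ', List.append_assoc]; rfl
  rw [e]
  ring

theorem ins1_rep' (a : ℕ) (β : List (Fin 2) → ℚ) :
    ins 1 (List.replicate a 1) β = ((a : ℚ) + 1) * β (List.replicate (a + 1) 1) := by
  have h := ins_replicate a [] β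
  rw [List.append_nil] at h
  rw [h, ins, ← List.replicate_succ', List.append_nil]
  ring

theorem ins1_G2 (a b c : ℕ) (β : List (Fin 2) → ℚ) :
    ins 1 (List.replicate a 1 ++ 0 :: (List.replicate b 1 ++ 0 :: List.replicate c 1)) β =
      ((a : ℚ) + 1) * G2 β (a + 1) b c + ((b : ℚ) + 1) * G2 β a (b + 1) c +
        ((c : ℚ) + 1) * G2 β a b (c + 1) := by
  rw [ins1_rep, ins1_rep, ins1_rep', ← add_assoc]
  rfl

theorem G2_word (a b c : ℕ) : (List.replicate a 1 ++ 0 :: (List.replicate b 1 ++
    0 :: List.replicate c (1 : Fin 2))).reverse =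
      List.replicate c 1 ++ 0 :: (List.replicate b 1 ++ 0 :: List.replicate a 1) := by
  simp

theorem G3_word (a b c d : ℕ) : (List.replicate a 1 ++ 0 :: (List.replicate b 1 ++
    0 :: (List.replicate c 1 ++ 0 :: List.replicate d (1 : Fin 2)))).reverse =
      List.replicate d 1 ++ 0 :: (List.replicate c 1 ++ 0 :: (List.replicate b 1 ++
        0 :: List.replicate a 1)) := by
  simp

section dm

variable {ψ : A} {N m : ℕ}

theorem hS_of (h : IsDM ψ) (w : List (Fin 2)) : ins 1 w (co ψ) = 0 := by
  rw [Pool.Agent.TH19.DS.ins_eq]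
  exact Pool.Agent.H352.DSH.taskTwoC ψ h.mem 1 h.c1 w

theorem hT_of (h : IsDM ψ) (w : List (Fin 2)) : ins 0 w (co ψ) = 0 := by
  rw [Pool.Agent.TH19.DS.ins_eq]
  exact Pool.Agent.H352.DSH.taskTwoC ψ h.mem 0 h.c0 w

theorem rev_of (h : IsDM ψ) (u : List (Fin 2)) :
    co ψ u.reverse = (-1) ^ (u.length + 1) * co ψ u := taskTwoB ψ h.mem u

/-- **The single-letter relations.** If each word of `ψ` contains at least `m ≥ 2` letters `x₀`,
the sum over the words obtained from a word with `m - 1` letters `x₀` by inserting `x₀ x₁^n` before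
an `x₀` or at the end vanishes. -/
theorem single (h : IsDM ψ) (hN : LenHom ψ N) (hm : ∀ u, co ψ u ≠ 0 → m ≤ u.count 0)
    (h2 : 2 ≤ m) (n : ℕ) (w : List (Fin 2)) (hw : w.count 0 + 1 = m)
    (hw' : w.count 1 + n + m = N) : En n w (co ψ) = 0 := by
  refine E_zero (r := N - m) (m := m) (hS_of h) (hT_of h) ?_ n w hw (by omega)
  intro k hk a ha hs
  rw [sh_eq_st]
  refine harmonic h hN hm a (by omega) [k] (by simp) (fun x hx => ?_) (by simpa using hs)
    (Or.inr ?_)
  · rw [List.mem_singleton] at hx
    omega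
  intro he
  have := congrArg List.length he
  simp at this
  omega

/-- all words with `m` letters `x₀` vanish if the words `x₀ x₁^{g₁} ⋯ x₀ x₁^{g_m} x₁` do -/
theorem part_zero (h : IsDM ψ) (hmN : m < N)
    (hB : ∀ l : List ℕ, l.length = m → l.sum + 1 + m = N → 1 ≤ m →
      co ψ (Pool.Agent.TH19.DS.W l) = 0) (u : List (Fin 2)) (hu : u.count 0 = m)
    (hl : u.length = N) : co ψ u = 0 := by
  have hcl := Pool.Agent.TH19.DS.count_len u
  refine Pool.Agent.TH19.DS.all_zero (m := m) (r := N - m) (hS_of h) (hT_of h) (by omega) ?_ u hu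
    (by omega)
  intro l h1 h2 h3
  exact hB l h1 (by omega) h3

theorem rep_append (a b : ℕ) : List.replicate a (1 : Fin 2) ++ (List.replicate b 1 ++ [1]) =
    List.replicate (a + b + 1) 1 := by
  rw [← List.replicate_succ', ← List.replicate_add]
  congr 1

theorem W_two (g k : ℕ) (β : List (Fin 2) → ℚ) :
    β (Pool.Agent.TH19.DS.W [g, k]) = G2 β 0 g (k + 1) := by
  unfold G2
  congr 1
  simp only [Pool.Agent.TH19.DS.W, List.replicate_zero, List.nil_append]
  rw [← List.replicate_succ']

theorem W_three (g k l : ℕ) (β : List (Fin 2) → ℚ) :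
    β (Pool.Agent.TH19.DS.W [g, k, l]) = G3 β 0 g k (l + 1) := by
  unfold G3
  congr 1
  simp only [Pool.Agent.TH19.DS.W, List.replicate_zero, List.nil_append]
  rw [← List.replicate_succ']

/-- two letters `x₀`, odd weight -/
theorem two_odd (h : IsDM ψ) (hN : LenHom ψ N) (hm : ∀ u, co ψ u ≠ 0 → 2 ≤ u.count 0)
    (hodd : Odd N) (u : List (Fin 2)) (hu : u.count 0 = 2) : co ψ u = 0 := by
  by_contra hne
  have hl := hN u hne
  have hsm := (taskSmall_proof taskTwoB Pool.Agent.H352.DSH.taskTwoC ψ h u hne).1
  have hE : ∀ a b n, a + b + n + 2 = N → G2 (co ψ) a n b + G2 (co ψ) a b n = 0 := by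
    intro a b n hab
    rw [← En_G2]
    exact single h hN hm le_rfl n _ (by simp [List.count_append, List.count_replicate])
      (by simp [List.count_append]; omega)
  have hR : ∀ a b c, a + b + c + 2 = N → G2 (co ψ) c b a = G2 (co ψ) a b c := by
    intro a b c hab
    have := rev_of h (List.replicate a 1 ++ 0 :: (List.replicate b 1 ++ 0 :: List.replicate c 1))
    rw [G2_word] at this
    have h2 : Even ((List.replicate a 1 ++ 0 :: (List.replicate b 1 ++
        0 :: List.replicate c (1 : Fin 2))).length + 1) := by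
      have h3 : (List.replicate a 1 ++ 0 :: (List.replicate b 1 ++
        0 :: List.replicate c (1 : Fin 2))).length = N := by simp; omega
      rw [h3]
      exact hodd.add_one
    rw [h2.neg_one_pow, one_mul] at this
    exact this
  have hz : ∀ a b c, a + b + c + 2 = N → G2 (co ψ) a b c = 0 := by
    intro a b c hab
    have e1 := hR a b c hab
    have e2 := hE c b a (by omega)
    have e3 := hR c a b (by omega)
    have e4 := hE b a c (by omega)
    have e5 := hR b c a (by omega)
    have e6 := hE a c b (by omega)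
    linarith
  refine hne (part_zero h (by omega : 2 < N) ?_ u hu hl)
  intro l h1 h2 _
  match l, h1 with
  | [g, k], _ =>
    rw [W_two g k (co ψ)]
    refine hz _ _ _ ?_
    simp at h2
    omega

/-- three letters `x₀`, even weight -/
theorem three_even (h : IsDM ψ) (hN : LenHom ψ N) (hm : ∀ u, co ψ u ≠ 0 → 3 ≤ u.count 0)
    (heven : Even N) (u : List (Fin 2)) (hu : u.count 0 = 3) : co ψ u = 0 := by
  by_contra hne
  have hl := hN u hne
  have hsm := (taskSmall_proof taskTwoB Pool.Agent.H352.DSH.taskTwoC ψ h u hne).2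
  have hcl := Pool.Agent.TH19.DS.count_len u
  have hE : ∀ a b c n, a + b + c + n + 3 = N →
      G3 (co ψ) a n b c + G3 (co ψ) a b n c + G3 (co ψ) a b c n = 0 := by
    intro a b c n hab
    rw [← En_G3]
    exact single h hN hm (by omega) n _ (by simp [List.count_append, List.count_replicate])
      (by simp [List.count_append]; omega)
  have hR : ∀ a b c d, a + b + c + d + 3 = N → G3 (co ψ) d c b a = - G3 (co ψ) a b c d := by
    intro a b c d hab
    have := rev_of h (List.replicate a 1 ++ 0 :: (List.replicate b 1 ++ 0 :: (List.replicate c 1 ++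
      0 :: List.replicate d 1)))
    rw [G3_word] at this
    have h2 : Odd ((List.replicate a 1 ++ 0 :: (List.replicate b 1 ++ 0 :: (List.replicate c 1 ++
        0 :: List.replicate d (1 : Fin 2)))).length + 1) := by
      have h3 : (List.replicate a 1 ++ 0 :: (List.replicate b 1 ++ 0 :: (List.replicate c 1 ++
        0 :: List.replicate d (1 : Fin 2)))).length = N := by simp; omega
      rw [h3]
      exact heven.add_one
    rw [h2.neg_one_pow, neg_one_mul] at this
    exact this
  have hs : ∀ a b c d, a + b + c + d + 3 = N → G3 (co ψ) a b c d = G3 (co ψ) a d c b := by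
    intro a b c d hab
    have e1 := hE a c d b (by omega)
    have e2 := hE a c b d (by omega)
    linarith
  have hc : ∀ a b c d, a + b + c + d + 3 = N → G3 (co ψ) a b c d = G3 (co ψ) d a b c := by
    intro a b c d hab
    have e1 := hE a b c d (by omega)
    -- the reversed relation
    have e2 := hE c b a d (by omega)
    rw [hR a b d c (by omega), hR a d b c (by omega), hR d a b c (by omega)] at e2
    linarith
  have hz : ∀ a b c d, a + b + c + d + 3 = N → G3 (co ψ) a b c d = 0 := by
    intro a b c d hab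
    have e1 := hR a b c d hab
    have e2 := hs d c b a (by omega)
    have e3 := hc a b c d hab
    linarith
  refine hne (part_zero h (by omega : 3 < N) ?_ u hu hl)
  intro l h1 h2 _
  match l, h1 with
  | [g, k, l], _ =>
    rw [W_three g k l (co ψ)]
    refine hz _ _ _ _ ?_
    simp at h2
    omega

/-- two letters `x₀`, even weight: `⌊(N - 2) / 6⌋` coefficients suffice -/
theorem two_even (h : IsDM ψ) (hN : LenHom ψ N) (hm : ∀ u, co ψ u ≠ 0 → 2 ≤ u.count 0)
    (heven : Even N)
    (hc : ∀ j < (N - 2) / 6, G2 (co ψ) 0 (N - 3 - 2 * j) (2 * j + 1) = 0)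
    (u : List (Fin 2)) (hu : u.count 0 = 2) : co ψ u = 0 := by
  by_contra hne
  have hl := hN u hne
  have hsm := (taskSmall_proof taskTwoB Pool.Agent.H352.DSH.taskTwoC ψ h u hne).1
  have hE : ∀ a b n, a + b + n + 2 = N → G2 (co ψ) a n b + G2 (co ψ) a b n = 0 := by
    intro a b n hab
    rw [← En_G2]
    exact single h hN hm le_rfl n _ (by simp [List.count_append, List.count_replicate])
      (by simp [List.count_append]; omega)
  have hR : ∀ a b c, a + b + c + 2 = N → G2 (co ψ) c b a = - G2 (co ψ) a b c := by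
    intro a b c hab
    have := rev_of h (List.replicate a 1 ++ 0 :: (List.replicate b 1 ++ 0 :: List.replicate c 1))
    rw [G2_word] at this
    have h2 : Odd ((List.replicate a 1 ++ 0 :: (List.replicate b 1 ++
        0 :: List.replicate c (1 : Fin 2))).length + 1) := by
      have h3 : (List.replicate a 1 ++ 0 :: (List.replicate b 1 ++
        0 :: List.replicate c (1 : Fin 2))).length = N := by simp; omega
      rw [h3]
      exact heven.add_one
    rw [h2.neg_one_pow, neg_one_mul] at this
    exact this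
  have hG : ∀ a b c, a + b + c + 1 = N - 2 → ((a : ℚ) + 1) * G2 (co ψ) (a + 1) b c +
      ((b : ℚ) + 1) * G2 (co ψ) a (b + 1) c + ((c : ℚ) + 1) * G2 (co ψ) a b (c + 1) = 0 := by
    intro a b c _
    rw [← ins1_G2]
    exact hS_of h _
  have hr : Even (N - 2) := by
    obtain ⟨q, hq⟩ := heven
    exact ⟨q - 1, by omega⟩
  have hz : ∀ c ≤ N - 2, G2 (co ψ) 0 (N - 2 - c) c = 0 := by
    refine cusp (N - 2) hr (fun c => G2 (co ψ) 0 (N - 2 - c) c) ?_ ?_ ?_
    · intro c hc
      have := hE 0 c (N - 2 - c) (by omega)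
      rw [show N - 2 - (N - 2 - c) = c by omega]
      linarith
    · intro c hc
      have e1 : G2 (co ψ) (N - 2 - c) 0 c = - G2 (co ψ) 0 (N - 2 - c) c := by
        have e2 := hR (N - 2 - c) 0 c (by omega)
        have e3 := hE c (N - 2 - c) 0 (by omega)
        have e4 := hR 0 (N - 2 - c) c (by omega)
        linarith
      rw [← e1, reg (N - 2) (G2 (co ψ)) hG (N - 2 - c) 0 c (by omega)]
      have e5 : (-1 : ℚ) ^ (N - 2 - c) = (-1) ^ c := by
        rcases Nat.even_or_odd c with he | ho
        · rw [he.neg_one_pow, (hr.tsub he).neg_one_pow]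
        · rw [ho.neg_one_pow, (Nat.Even.sub_odd hc hr ho).neg_one_pow]
      rw [e5]
      congr 1
      rw [← Finset.Nat.sum_antidiagonal_swap, Finset.Nat.sum_antidiagonal_eq_sum_range_succ_mk]
      have e6 : N - 2 + 1 = c + (N - 2 - c).succ := by omega
      rw [e6, Finset.sum_range_add]
      rw [Finset.sum_eq_zero, zero_add]
      · refine Finset.sum_congr rfl fun j hj => ?_
        rw [Finset.mem_range] at hj
        simp only [Prod.swap, zero_add, Nat.choose_self, Nat.cast_one, one_mul]
        rw [show N - 2 - (c + j) = N - 2 - c - j by omega]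
        congr 2
        exact Nat.choose_symm_add
      · intro l hl
        rw [Finset.mem_range] at hl
        rw [Nat.choose_eq_zero_of_lt hl]
        simp
    · intro j hj
      have := hc j hj
      rw [show N - 2 - (2 * j + 1) = N - 3 - 2 * j by omega]
      exact this
  refine hne (part_zero h (by omega : 2 < N) ?_ u hu hl)
  intro l h1 h2 _
  match l, h1 with
  | [g, k], _ =>
    rw [W_two g k (co ψ)]
    simp at h2
    have := hz (k + 1) (by omega)
    rwa [show N - 2 - (k + 1) = g by omega] at this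

end dm

end Pool.Agent.Y759.QS
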