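import Pool.Agent.Y759.DS.Filt

/-!
# The coefficients at `x₀^{N-1} x₁` and at `x₀ x₁^{N-1}`
-/

set_option autoImplicit false

namespace Pool.Agent.Y759.QS

open Pool.Agent.H777R4.DM
open Pool.Agent.TH19.DS (ins sh ins_zeros ins_replicate)

theorem ins1_zeros (n : ℕ) (t : List (Fin 2)) : ∀ β : List (Fin 2) → ℚ,
    ins 1 (List.replicate n 0 ++ t) β =
      ∑ j ∈ Finset.range n, β (List.replicate j 0 ++ 1 :: (List.replicate (n - j) 0 ++ t)) +
        ins 1 t (fun s => β (List.replicate n 0 ++ s)) := by
  induction n with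
  | zero => intro β; simp
  | succ n ih =>
    intro β
    rw [List.replicate_succ, List.cons_append, ins, ih, Finset.sum_range_succ']
    have e1 : ∀ j ∈ Finset.range n, β (0 :: (List.replicate j 0 ++ 1 ::
        (List.replicate (n - j) 0 ++ t))) = β (List.replicate (j + 1) 0 ++ 1 ::
          (List.replicate (n + 1 - (j + 1)) 0 ++ t)) := by
      intro j _
      rw [List.replicate_succ, Nat.add_sub_add_right]
      rfl
    rw [Finset.sum_congr rfl e1]
    simp only [List.replicate_zero, List.nil_append, Nat.sub_zero, List.replicate_succ,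
      List.cons_append]
    ring

theorem wordX_zeros (k : ℕ) : wordX (List.replicate k 0) = List.replicate k 1 := by
  induction k with
  | zero => rfl
  | succ k ih => rw [List.replicate_succ, wordX, ih]; rfl

theorem sf_ones (n : ℕ) : ∀ F : List ℕ → ℚ,
    sf F (List.replicate n 0) [0] = ((n : ℚ) + 1) * F (List.replicate (n + 1) 0) +
      sh 1 (List.replicate n 0) F := by
  induction n with
  | zero => intro F; rw [List.replicate_zero, sf_nil_left, sh]; simp
  | succ n ih =>
    intro F
    rw [List.replicate_succ, sf_cons, sf_nil_right, sf_nil_right, ih, sh]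
    have e1 : (0 : ℕ) :: List.replicate (n + 1) 0 = List.replicate (n + 1 + 1) 0 := rfl
    have e2 : (0 : ℕ) :: 0 :: List.replicate n 0 = List.replicate (n + 1 + 1) 0 := rfl
    simp only [e1, e2]
    push_cast
    ring

section dm

variable {ψ : A} {N : ℕ}

/-- the relations of depth two -/
theorem depth_two (h : IsDM ψ) (a b : ℕ) (hab : a + b ≠ 0) :
    co ψ (wordX [a, b]) + co ψ (wordX [b, a]) + co ψ (wordX [a + b + 1]) = 0 := by
  have h1 := stuffle h a [] b []
  rw [sf_cons, sf_nil_left, sf_nil_right, sf_nil_right, corr_pos ψ (by simp; omega),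
    corr_pos ψ (by simp; omega), corr_pos ψ (by simp)] at h1
  linarith

theorem ones_zero (h : IsDM ψ) (n : ℕ) (hn : 0 < n) : co ψ (List.replicate n 1) = 0 := by
  obtain ⟨k, rfl⟩ := Nat.exists_eq_add_of_le' hn
  have h1 := hS_of h (List.replicate k 1)
  rw [ins1_rep'] at h1
  have h2 : (k : ℚ) + 1 ≠ 0 := by positivity
  exact (mul_eq_zero.1 h1).resolve_left h2

/-- in even weight the coefficient in depth one vanishes -/
theorem depth_one_even (h : IsDM ψ) (heven : Even N) (h3 : 3 ≤ N) :
    co ψ (wordX [N - 1]) = 0 := by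
  obtain ⟨n, rfl⟩ : ∃ n, N = n + 2 := ⟨N - 2, by omega⟩
  have h1 := hS_of h (List.replicate n 0 ++ [1])
  rw [ins1_zeros] at h1
  have e1 : ins 1 [1] (fun s => co ψ (List.replicate n 0 ++ s)) = 2 * co ψ (wordX [n, 0]) := by
    simp only [ins, wordX]
    simp
    ring
  have e2 : ∀ j ∈ Finset.range n, co ψ (List.replicate j 0 ++ 1 ::
      (List.replicate (n - j) 0 ++ [1])) = co ψ (wordX [j, n - j]) := by
    intro j _
    simp [wordX]
  rw [e1, Finset.sum_congr rfl e2] at h1
  -- the palindrome
  have h2 : co ψ (wordX [0, n]) = 0 := by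
    have h4 := rev_of h (wordX [0, n])
    have e3 : (wordX [0, n]).reverse = wordX [0, n] := by simp [wordX]
    have e4 : Odd ((wordX [0, n]).length + 1) := by
      rw [wordX_length]
      have : [0, n].sum + [0, n].length + 1 = n + 2 + 1 := by simp
      rw [this]
      exact heven.add_one
    rw [e3, e4.neg_one_pow] at h4
    linarith
  have h5 := depth_two h n 0 (by omega)
  rw [h2] at h5
  have h6 : ∑ j ∈ Finset.range (n + 1), (co ψ (wordX [j, n - j]) + co ψ (wordX [n - j, j]) +
      co ψ (wordX [n + 1])) = 0 := by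
    refine Finset.sum_eq_zero fun j hj => ?_
    rw [Finset.mem_range] at hj
    have := depth_two h j (n - j) (by omega)
    rwa [show j + (n - j) + 1 = n + 1 by omega] at this
  rw [Finset.sum_add_distrib, Finset.sum_add_distrib] at h6
  have h7 : ∑ j ∈ Finset.range (n + 1), co ψ (wordX [n - j, j]) =
      ∑ j ∈ Finset.range (n + 1), co ψ (wordX [j, n - j]) := by
    rw [← Finset.sum_range_reflect]
    refine Finset.sum_congr rfl fun j hj => ?_
    rw [Finset.mem_range] at hj
    rw [show n + 1 - 1 - j = n - j by omega, show n - (n - j) = j by omega]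
  rw [h7, Finset.sum_range_succ, Finset.sum_const, Finset.card_range, nsmul_eq_mul,
    Nat.sub_self] at h6
  push_cast at h6
  show co ψ (wordX [n + 1]) = 0
  have h8 : ((n : ℚ) + 3) * co ψ (wordX [n + 1]) = 0 := by
    rw [show n + 0 + 1 = n + 1 by omega] at h5
    linear_combination h6 - 2 * h1 + 2 * h5
  have h9 : (n : ℚ) + 3 ≠ 0 := by positivity
  exact (mul_eq_zero.1 h8).resolve_left h9

/-- the coefficients at `x₀^{N-1} x₁` and `x₀ x₁^{N-1}` agree -/
theorem dual_one (h : IsDM ψ) (h3 : 3 ≤ N) :
    co ψ (0 :: List.replicate (N - 1) 1) = co ψ (wordX [N - 1]) := by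
  obtain ⟨n, rfl⟩ : ∃ n, N = n + 2 := ⟨N - 2, by omega⟩
  have h1 := stuffle h 0 (List.replicate n 0) 0 []
  have e1 : (0 : ℕ) :: List.replicate n 0 = List.replicate (n + 1) 0 := rfl
  rw [e1, sf_ones, sh_add] at h1
  -- the corrections
  have h2 : sh 1 (List.replicate (n + 1) 0) (corr ψ) = 0 := by
    have key : ∀ (a : List ℕ) (F : List ℕ → ℚ), (∀ l : List ℕ, l.sum ≠ 0 → F l = 0) →
        sh 1 a F = 0 := by
      intro a
      induction a with
      | nil => intro F _; rfl
      | cons x a ih =>
        intro F hF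
        rw [sh, hF _ (by simp), ih, add_zero]
        intro l hl
        exact hF _ (by simp; omega)
    exact key _ _ fun l hl => corr_pos ψ hl
  have h4 : ((n : ℚ) + 2) * corr ψ (List.replicate (n + 1 + 1) 0) =
      (-1) ^ (n + 1) * co ψ (wordX [n + 1]) := by
    unfold corr
    rw [if_pos]
    · rw [List.length_replicate, show n + 1 + 1 - 1 = n + 1 by omega]
      have h5 : (n : ℚ) + 2 ≠ 0 := by positivity
      push_cast
      have e2 : wordX [n + 1] = List.replicate (n + 1) 0 ++ [1] := rfl
      rw [e2]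
      field_simp
      ring
    · rw [List.length_replicate]
      exact ⟨by omega, rfl⟩
  have h5 : sh 1 (List.replicate (n + 1) 0) (fun l => co ψ (wordX l)) =
      D1 (List.replicate (n + 1) 1) (co ψ) := by
    have := D1_word (List.replicate (n + 1) 0) 0 (co ψ)
    simp only [List.replicate_zero, List.append_nil] at this
    rw [← this, wordX_zeros]
  have h6 := hT_of h (List.replicate (n + 1) 1)
  rw [ins0_split, En_rep'] at h6
  have h7 := rev_of h (0 :: List.replicate (n + 1) 1)
  have e3 : (0 :: List.replicate (n + 1) (1 : Fin 2)).reverse =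
      List.replicate (n + 1) 1 ++ 0 :: List.replicate 0 1 := by simp
  rw [e3] at h7
  have e4 : (0 :: List.replicate (n + 1) (1 : Fin 2)).length + 1 = n + 3 := by simp
  rw [e4] at h7
  rw [wordX_zeros, ones_zero h _ (by omega), zero_add, h2, add_zero, h5] at h1
  have h8 : (((n + 1 : ℕ) : ℚ) + 1) = (n : ℚ) + 2 := by push_cast; ring
  rw [h8, h4] at h1
  show co ψ (0 :: List.replicate (n + 1) 1) = co ψ (wordX [n + 1])
  rw [h7] at h6
  have h9 : (-1 : ℚ) ^ (n + 3) = (-1) ^ (n + 1) := by rw [pow_add _ n 3, pow_add _ n 1]; norm_num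
  rw [h9] at h6
  have h10 : (-1 : ℚ) ^ (n + 1) * (co ψ (0 :: List.replicate (n + 1) 1) -
      co ψ (wordX [n + 1])) = 0 := by linear_combination h6 - h1
  have h11 : (-1 : ℚ) ^ (n + 1) ≠ 0 := pow_ne_zero _ (by norm_num)
  exact sub_eq_zero.1 ((mul_eq_zero.1 h10).resolve_left h11)

/-- words with one letter `x₀` -/
theorem one_part (h : IsDM ψ) (hN : LenHom ψ N) (h0 : co ψ (wordX [N - 1]) = 0)
    (u : List (Fin 2)) (hu : u.count 0 ≤ 1) : co ψ u = 0 := by
  by_contra hne
  have hl := hN u hne
  have hsm := (taskSmall_proof taskTwoB Pool.Agent.H352.DSH.taskTwoC ψ h u hne).1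
  rcases Nat.lt_or_ge (u.count 0) 1 with h1 | h1
  · refine hne (part_zero h (by omega : 0 < N) ?_ u (by omega) hl)
    intro l _ _ h3
    omega
  · refine hne (part_zero h (by omega : 1 < N) ?_ u (by omega) hl)
    intro l h2 h3 _
    match l, h2 with
    | [g], _ =>
      have hg : g + 1 = N - 1 := by simp at h3; omega
      have e : Pool.Agent.TH19.DS.W [g] = 0 :: List.replicate (N - 1) 1 := by
        rw [← hg, List.replicate_succ']
        rfl
      rw [e, dual_one h (by omega), h0]

/-- **odd weight** -/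
theorem filt_odd (h : IsDM ψ) (hN : LenHom ψ N) (hodd : Odd N)
    (h0 : co ψ (List.replicate (N - 1) 0 ++ [1]) = 0) (u : List (Fin 2)) (hu : co ψ u ≠ 0) :
    3 ≤ u.count 0 := by
  have h1 : ∀ u, co ψ u ≠ 0 → 2 ≤ u.count 0 := by
    intro u hu
    by_contra hlt
    exact hu (one_part h hN h0 u (by omega))
  have h2 := h1 u hu
  by_contra hlt
  exact hu (two_odd h hN h1 hodd u (by omega))

/-- **even weight** -/
theorem filt_even (h : IsDM ψ) (hN : LenHom ψ N) (heven : Even N)
    (hc : ∀ j < (N - 2) / 6, co ψ (0 :: (List.replicate (N - 3 - 2 * j) 1 ++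
      0 :: List.replicate (2 * j + 1) 1)) = 0) (u : List (Fin 2)) (hu : co ψ u ≠ 0) :
    4 ≤ u.count 0 := by
  have hsm := (taskSmall_proof taskTwoB Pool.Agent.H352.DSH.taskTwoC ψ h u hu).1
  have hl := hN u hu
  have h1 : ∀ u, co ψ u ≠ 0 → 2 ≤ u.count 0 := by
    intro u hu
    by_contra hlt
    exact hu (one_part h hN (depth_one_even h heven (by omega)) u (by omega))
  have h2 : ∀ u, co ψ u ≠ 0 → 3 ≤ u.count 0 := by
    intro u hu
    have := h1 u hu
    by_contra hlt
    exact hu (two_even h hN h1 heven hc u (by omega))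
  have h3 := h2 u hu
  by_contra hlt
  exact hu (three_even h hN h2 heven u (by omega))

end dm

end Pool.Agent.Y759.QS
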