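import Mathlib

/-! The matrix of the binomial expressions `C(p,j) - C(n-p,j) + C(n-p,n-j) - C(p,n-j)`, `p` even,
`j` odd and at most `n/3`, has independent columns. -/

set_option autoImplicit false

namespace Pool.Agent.Y759.DS

open Polynomial Finset

lemma periodic_const (P : ℚ[X]) (r : ℚ) (hr : r ≠ 0) (h : ∀ x : ℚ, P.eval (x + r) = P.eval x) :
    P = C (P.eval 0) := by
  have h1 : ∀ k : ℕ, P.eval ((k : ℚ) * r) = P.eval 0 := by
    intro k
    induction k with
    | zero => simp
    | succ k ih =>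
      rw [← ih, ← h ((k : ℚ) * r)]
      congr 1
      push_cast
      ring
  apply Polynomial.eq_of_infinite_eval_eq
  apply Set.Infinite.mono (s := Set.range fun k : ℕ => (k : ℚ) * r)
  · rintro _ ⟨k, rfl⟩
    simp [h1 k]
  · apply Set.infinite_range_of_injective
    intro a b hab
    have := mul_right_cancel₀ hr hab
    exact_mod_cast this

lemma der_zero (p : ℚ[X]) (k : ℕ) (h : derivative^[k] p = 0) (m : ℕ) (hm : k ≤ m) :
    p.coeff m = 0 := by
  have h2 := Polynomial.coeff_iterate_derivative (p := p) (k := k) (m - k)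
  rw [h, coeff_zero, Nat.sub_add_cancel hm, nsmul_eq_mul] at h2
  have h3 : (m.descFactorial k : ℚ) ≠ 0 := by
    have := (Nat.descFactorial_eq_zero_iff_lt (n := m) (k := k))
    have h4 : m.descFactorial k ≠ 0 := fun h5 => absurd (this.1 h5) (not_lt.2 hm)
    exact_mod_cast h4
  rcases mul_eq_zero.1 h2.symm with h5 | h5
  · exact absurd h5 h3
  · exact h5

lemma pow_dvd_der_zero (q p : ℚ[X]) (hq : q.natDegree = 1) (k M : ℕ) (hk : 1 ≤ k) (hM : k ≤ M)
    (hd : q ^ M ∣ p) (h : derivative^[k] p = 0) : p = 0 := by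
  refine Polynomial.eq_zero_of_dvd_of_natDegree_lt hd ?_
  rw [natDegree_pow, hq, mul_one]
  refine lt_of_le_of_lt ?_ (lt_of_lt_of_le (Nat.sub_lt hk Nat.one_pos) hM)
  rw [natDegree_le_iff_coeff_eq_zero]
  intro N hN
  exact der_zero p k h N (by omega)

lemma syz (M d : ℕ) (hM : 2 * d + 2 ≤ M) (b1 b2 b3 : ℚ[X]) (h1 : b1.natDegree ≤ d)
    (h2 : b2.natDegree ≤ d) (_h3 : b3.natDegree ≤ d)
    (h : X ^ M * b1 + b2 + (X + 1) ^ M * b3 = 0) : b1 = 0 ∧ b2 = 0 ∧ b3 = 0 := by
  have hX1 : (X + 1 : ℚ[X]).natDegree = 1 := by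
    simpa using natDegree_X_add_C (1 : ℚ)
  set P1 := derivative^[d + 1] (X ^ M * b1) with hP1
  set P3 := derivative^[d + 1] ((X + 1) ^ M * b3) with hP3
  have hs : P1 + P3 = 0 := by
    have h4 := congrArg (derivative^[d + 1]) h
    rw [iterate_map_add, iterate_map_add,
      iterate_derivative_eq_zero (p := b2) (by omega), iterate_map_zero, add_zero] at h4
    exact h4
  have hd1 : X ^ (M - (d + 1)) ∣ P1 :=
    pow_sub_dvd_iterate_derivative_of_pow_dvd _ (Dvd.intro _ rfl)
  have hd3 : (X + 1) ^ (M - (d + 1)) ∣ P3 :=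
    pow_sub_dvd_iterate_derivative_of_pow_dvd _ (Dvd.intro _ rfl)
  have hd3' : (X + 1) ^ (M - (d + 1)) ∣ P1 := by
    have : P1 = -P3 := eq_neg_of_add_eq_zero_left hs
    rw [this]
    exact (dvd_neg).2 hd3
  have hcop : IsCoprime (X ^ (M - (d + 1)) : ℚ[X]) ((X + 1) ^ (M - (d + 1))) := by
    apply IsCoprime.pow
    exact ⟨-1, 1, by ring⟩
  have hdd := hcop.mul_dvd hd1 hd3'
  have hz1 : P1 = 0 := by
    refine Polynomial.eq_zero_of_dvd_of_natDegree_lt hdd ?_
    have e1 : (X ^ (M - (d + 1)) * (X + 1) ^ (M - (d + 1)) : ℚ[X]).natDegree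
        = 2 * (M - (d + 1)) := by
      rw [natDegree_mul (pow_ne_zero _ X_ne_zero) (pow_ne_zero _ (by
        intro h0; rw [h0] at hX1; simp at hX1)), natDegree_pow, natDegree_pow, hX1, natDegree_X]
      ring
    rw [e1]
    have e2 : P1.natDegree ≤ (X ^ M * b1).natDegree - (d + 1) :=
      natDegree_iterate_derivative _ _
    have e3 : (X ^ M * b1).natDegree ≤ M + d := by
      refine natDegree_mul_le.trans ?_
      rw [natDegree_pow, natDegree_X]
      omega
    omega
  have hz3 : P3 = 0 := by rw [hz1, zero_add] at hs; exact hs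
  have c1 : X ^ M * b1 = 0 :=
    pow_dvd_der_zero X _ natDegree_X (d + 1) M (by omega) (by omega) (Dvd.intro _ rfl) hz1
  have c3 : (X + 1) ^ M * b3 = 0 :=
    pow_dvd_der_zero (X + 1) _ hX1 (d + 1) M (by omega) (by omega) (Dvd.intro _ rfl) hz3
  have hb2 : b2 = 0 := by rw [c1, c3] at h; simpa using h
  refine ⟨?_, hb2, ?_⟩
  · exact (mul_eq_zero.1 c1).resolve_left (pow_ne_zero _ X_ne_zero)
  · refine (mul_eq_zero.1 c3).resolve_left (pow_ne_zero _ ?_)
    intro h0; rw [h0] at hX1; simp at hX1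

lemma cm1 (n j q : ℕ) : n.choose j * (n - j).choose q = n.choose q * (n - q).choose j := by
  by_cases h : j + q ≤ n
  · have e1 := Nat.choose_mul (n := n) (k := j + q) (s := j) (by omega)
    have e2 := Nat.choose_mul (n := n) (k := j + q) (s := q) (by omega)
    have e3 : (j + q).choose j = (j + q).choose q := Nat.choose_symm_add
    rw [show j + q - j = q by omega] at e1
    rw [show j + q - q = j by omega] at e2
    rw [← e1, ← e2, e3]
  · rcases le_or_gt j n with hj | hj
    · rcases le_or_gt q n with hq | hq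
      · rw [Nat.choose_eq_zero_of_lt (show n - j < q by omega),
          Nat.choose_eq_zero_of_lt (show n - q < j by omega)]
        simp
      · rw [Nat.choose_eq_zero_of_lt (show n - j < q by omega), Nat.choose_eq_zero_of_lt hq]
        simp
    · rw [Nat.choose_eq_zero_of_lt hj]
      rcases le_or_gt q n with hq | hq
      · rw [Nat.choose_eq_zero_of_lt (show n - q < j by omega)]
        simp
      · rw [Nat.choose_eq_zero_of_lt hq]
        simp

lemma cm2 (n j q : ℕ) (_hj : j ≤ n) :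
    n.choose j * (if j ≤ q then (n - j).choose (q - j) else 0) = n.choose q * q.choose j := by
  by_cases h : j ≤ q
  · rw [if_pos h]
    exact (Nat.choose_mul h).symm
  · rw [if_neg h, Nat.choose_eq_zero_of_lt (show q < j by omega), mul_zero, mul_zero]

/-- `(X+1)^(n-j) - (X+1)^(n-j) X^j`. -/
noncomputable def ee (n j : ℕ) : ℚ[X] := (X + 1) ^ (n - j) - (X + 1) ^ (n - j) * X ^ j

lemma coeff_ee (n j q : ℕ) (hj : j ≤ n) :
    (n.choose j : ℚ) * (ee n j).coeff q
      = (n.choose q : ℚ) * (((n - q).choose j : ℚ) - (q.choose j : ℚ)) := by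
  have e1 : ((n.choose j * (n - j).choose q : ℕ) : ℚ) = ((n.choose q * (n - q).choose j : ℕ) : ℚ) := by
    rw [cm1]
  have e2 : ((n.choose j * (if j ≤ q then (n - j).choose (q - j) else 0) : ℕ) : ℚ)
      = ((n.choose q * q.choose j : ℕ) : ℚ) := by
    rw [cm2 n j q hj]
  unfold ee
  rw [coeff_sub, coeff_X_add_one_pow, coeff_mul_X_pow', mul_sub, mul_sub]
  push_cast at e1 e2
  rw [e1, ← e2]
  congr 1
  split_ifs <;> simp [coeff_X_add_one_pow]

/-- The polynomial `H`. -/
noncomputable def HP (n m : ℕ) (c : ℕ → ℚ) : ℚ[X] :=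
  ∑ t ∈ range m, C (c t * n.choose (2 * t + 1)) * (ee n (2 * t + 1) - ee n (n - (2 * t + 1)))

lemma coeff_HP (n m : ℕ) (hm : 6 * m ≤ n) (c : ℕ → ℚ) (q : ℕ) :
    (HP n m c).coeff q = (n.choose q : ℚ) * ∑ t ∈ range m, c t *
      (((n - q).choose (2 * t + 1) : ℚ) - (q.choose (2 * t + 1) : ℚ)
        + (q.choose (n - (2 * t + 1)) : ℚ) - ((n - q).choose (n - (2 * t + 1)) : ℚ)) := by
  unfold HP
  rw [finsetSum_coeff, Finset.mul_sum]
  refine Finset.sum_congr rfl fun t ht => ?_
  have ht' := Finset.mem_range.1 ht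
  rw [coeff_C_mul, coeff_sub]
  have e1 := coeff_ee n (2 * t + 1) q (by omega)
  have e2 := coeff_ee n (n - (2 * t + 1)) q (by omega)
  rw [Nat.choose_symm (show 2 * t + 1 ≤ n by omega)] at e2
  linear_combination (c t) * e1 - (c t) * e2

/-- `F(x,y)`. -/
def FF (n m : ℕ) (c : ℕ → ℚ) (x y : ℚ) : ℚ :=
  ∑ t ∈ range m, c t * n.choose (2 * t + 1) *
    (x ^ (n - (2 * t + 1)) * y ^ (2 * t + 1) - x ^ (2 * t + 1) * y ^ (n - (2 * t + 1)))

lemma FF_neg_left (n m : ℕ) (hn : Even n) (hm : 6 * m ≤ n) (c : ℕ → ℚ) (x y : ℚ) :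
    FF n m c (-x) y = - FF n m c x y := by
  unfold FF
  rw [← Finset.sum_neg_distrib]
  refine Finset.sum_congr rfl fun t ht => ?_
  have ht' := Finset.mem_range.1 ht
  have o1 : Odd (2 * t + 1) := ⟨t, rfl⟩
  have o2 : Odd (n - (2 * t + 1)) := Nat.Even.sub_odd (by omega) hn o1
  rw [o1.neg_pow, o2.neg_pow]
  ring

lemma FF_swap (n m : ℕ) (c : ℕ → ℚ) (x y : ℚ) :
    FF n m c y x = - FF n m c x y := by
  unfold FF
  rw [← Finset.sum_neg_distrib]
  refine Finset.sum_congr rfl fun t _ => ?_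
  ring

lemma FF_neg_right (n m : ℕ) (hn : Even n) (hm : 6 * m ≤ n) (c : ℕ → ℚ) (x y : ℚ) :
    FF n m c x (-y) = - FF n m c x y := by
  rw [FF_swap, FF_neg_left n m hn hm, FF_swap n m c x y, neg_neg]

lemma FF_zero (n m : ℕ) (hm : 6 * m ≤ n) (c : ℕ → ℚ) (y : ℚ) : FF n m c 0 y = 0 := by
  unfold FF
  refine Finset.sum_eq_zero fun t ht => ?_
  have ht' := Finset.mem_range.1 ht
  rw [zero_pow (by omega), zero_pow (by omega)]
  ring

lemma FF_diag (n m : ℕ) (c : ℕ → ℚ) (x : ℚ) : FF n m c x x = 0 := by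
  unfold FF
  refine Finset.sum_eq_zero fun t _ => ?_
  ring

lemma eval_HP (n m : ℕ) (hm : 6 * m ≤ n) (c : ℕ → ℚ) (x : ℚ) :
    (HP n m c).eval x = FF n m c (x + 1) 1 - FF n m c (x + 1) x := by
  unfold HP FF ee
  rw [eval_finsetSum, ← Finset.sum_sub_distrib]
  refine Finset.sum_congr rfl fun t ht => ?_
  have ht' := Finset.mem_range.1 ht
  have e : n - (n - (2 * t + 1)) = 2 * t + 1 := by omega
  rw [e]
  simp only [eval_mul, eval_C, eval_sub, eval_pow, eval_add, eval_X, eval_one, one_pow, mul_one]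
  ring

lemma rank_key (n m : ℕ) (hn : Even n) (hm : 6 * m ≤ n) (c : ℕ → ℚ)
    (h : ∀ p, Even p → 2 ≤ p → p + 2 ≤ n → ∑ t ∈ range m, c t *
      ((p.choose (2 * t + 1) : ℚ) - ((n - p).choose (2 * t + 1) : ℚ)
        + ((n - p).choose (n - (2 * t + 1)) : ℚ) - (p.choose (n - (2 * t + 1)) : ℚ)) = 0) :
    ∀ t < m, c t = 0 := by
  intro t0 ht0
  -- even coefficients of HP vanish
  have hcoef : ∀ q, Even q → (HP n m c).coeff q = 0 := by
    intro q hq
    rw [coeff_HP n m hm]
    by_cases h1 : n < q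
    · rw [Nat.choose_eq_zero_of_lt h1]
      simp
    · push Not at h1
      by_cases h2 : 2 ≤ q ∧ q + 2 ≤ n
      · have := h (n - q) ((Nat.even_sub (by omega)).2 (iff_of_true hn hq)) (by omega) (by omega)
        rw [show n - (n - q) = q by omega] at this
        rw [this, mul_zero]
      · have h3 : q = 0 ∨ q = n := by
          obtain ⟨a, ha⟩ := hq
          obtain ⟨b, hb⟩ := hn
          omega
        have h4 : ∑ t ∈ range m, c t *
      (((n - q).choose (2 * t + 1) : ℚ) - (q.choose (2 * t + 1) : ℚ)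
        + (q.choose (n - (2 * t + 1)) : ℚ) - ((n - q).choose (n - (2 * t + 1)) : ℚ)) = 0 := by
          refine Finset.sum_eq_zero fun t ht => ?_
          have ht' := Finset.mem_range.1 ht
          have e1 : n.choose (n - (2 * t + 1)) = n.choose (2 * t + 1) :=
            Nat.choose_symm (by omega)
          have e2 : Nat.choose 0 (2 * t + 1) = 0 := Nat.choose_eq_zero_of_lt (by omega)
          have e3 : Nat.choose 0 (n - (2 * t + 1)) = 0 := Nat.choose_eq_zero_of_lt (by omega)
          rcases h3 with h3 | h3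
          · rw [h3, Nat.sub_zero, e1, e2, e3]
            push_cast
            ring
          · rw [h3, Nat.sub_self, e1, e2, e3]
            push_cast
            ring
        rw [h4, mul_zero]
  -- HP is odd
  have hodd : ∀ x : ℚ, (HP n m c).eval (-x) = - (HP n m c).eval x := by
    intro x
    rw [eval_eq_sum_range, eval_eq_sum_range, ← Finset.sum_neg_distrib]
    refine Finset.sum_congr rfl fun q _ => ?_
    rcases Nat.even_or_odd q with hq | hq
    · rw [hcoef q hq]
      ring
    · rw [hq.neg_pow]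
      ring
  set F := FF n m c with hF
  have hstar : ∀ x : ℚ, F (x + 1) 1 - F (x + 1) x = F (x - 1) 1 + F (x - 1) x := by
    intro x
    have e := hodd x
    rw [eval_HP n m hm, eval_HP n m hm, ← hF] at e
    have e1 : F (-x + 1) 1 = - F (x - 1) 1 := by
      rw [show -x + 1 = -(x - 1) by ring]
      exact FF_neg_left n m hn hm c _ _
    have e2 : F (-x + 1) (-x) = F (x - 1) x := by
      rw [show -x + 1 = -(x - 1) by ring, hF, FF_neg_left n m hn hm, FF_neg_right n m hn hm,
        neg_neg]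
    rw [e1, e2] at e
    linarith
  -- the sum polynomial
  set b1 : ℚ[X] := ∑ t ∈ range m, C (c t * n.choose (2 * t + 1)) *
    (X ^ (2 * m - 2 - 2 * t) * (1 + (X + 1) ^ (2 * t + 1))) with hb1
  set b2 : ℚ[X] := ∑ t ∈ range m, C (c t * n.choose (2 * t + 1)) *
    (-(X ^ (2 * t + 1) + (X + 1) ^ (2 * t + 1))) with hb2
  set b3 : ℚ[X] := ∑ t ∈ range m, C (c t * n.choose (2 * t + 1)) *
    ((X + 1) ^ (2 * m - 2 - 2 * t) * (1 - X ^ (2 * t + 1))) with hb3
  have heval : ∀ x : ℚ, (X ^ (n - 2 * m + 1) * b1 + b2 + (X + 1) ^ (n - 2 * m + 1) * b3).eval x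
      = F x 1 + F (x + 1) 1 - F (x + 1) x := by
    intro x
    rw [eval_add, eval_add, eval_mul, eval_mul, hb1, hb2, hb3, eval_finsetSum, eval_finsetSum,
      eval_finsetSum, Finset.mul_sum, Finset.mul_sum, ← Finset.sum_add_distrib,
      ← Finset.sum_add_distrib, hF]
    unfold FF
    rw [← Finset.sum_add_distrib, ← Finset.sum_sub_distrib]
    refine Finset.sum_congr rfl fun t ht => ?_
    have ht' := Finset.mem_range.1 ht
    have e : n - (2 * t + 1) = (n - 2 * m + 1) + (2 * m - 2 - 2 * t) := by omega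
    rw [e]
    simp only [eval_mul, eval_C, eval_sub, eval_pow, eval_add, eval_X, eval_one, one_pow, mul_one,
      eval_neg, pow_add]
    ring
  set S : ℚ[X] := X ^ (n - 2 * m + 1) * b1 + b2 + (X + 1) ^ (n - 2 * m + 1) * b3 with hS
  have hper : ∀ x : ℚ, S.eval (x + 1) = S.eval x := by
    intro x
    rw [heval, heval]
    have e := hstar (x + 1)
    rw [show x + 1 - 1 = x by ring] at e
    have e2 : F x (x + 1) = - F (x + 1) x := FF_swap n m c _ _
    linarith
  have hS0 : S = 0 := by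
    rw [periodic_const S 1 one_ne_zero hper, heval]
    have e1 : F 0 1 = 0 := FF_zero n m hm c 1
    have e2 : F (0 + 1) 1 = 0 := by rw [zero_add]; exact FF_diag n m c 1
    have e3 : F (0 + 1) 0 = 0 := by
      rw [zero_add, hF, FF_swap, FF_zero n m hm, neg_zero]
    rw [e1, e2, e3]
    simp
  have hm1 : 1 ≤ m := by omega
  have hz := syz (n - 2 * m + 1) (2 * m - 1) (by omega) b1 b2 b3 ?_ ?_ ?_ hS0
  · -- conclusion
    set P : ℚ[X] := ∑ t ∈ range m, C (c t * n.choose (2 * t + 1)) * X ^ (2 * t + 1) with hP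
    have hPb : ∀ x : ℚ, P.eval (x + 1) = - P.eval x := by
      intro x
      have e : b2.eval x = 0 := by rw [hz.2.1, eval_zero]
      rw [hb2, eval_finsetSum] at e
      rw [hP, eval_finsetSum, eval_finsetSum, eq_neg_iff_add_eq_zero,
        ← Finset.sum_add_distrib, ← neg_eq_zero, ← Finset.sum_neg_distrib]
      rw [← e]
      refine Finset.sum_congr rfl fun t _ => ?_
      simp only [eval_mul, eval_C, eval_neg, eval_pow, eval_add, eval_X, eval_one]
      ring
    have hPp : ∀ x : ℚ, P.eval (x + 2) = P.eval x := by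
      intro x
      rw [show x + 2 = (x + 1) + 1 by ring, hPb, hPb, neg_neg]
    have hPc := periodic_const P 2 two_ne_zero hPp
    have hco : P.coeff (2 * t0 + 1) = 0 := by
      rw [hPc, coeff_C, if_neg (by omega)]
    rw [hP, finsetSum_coeff] at hco
    rw [Finset.sum_eq_single t0] at hco
    · rw [coeff_C_mul, coeff_X_pow, if_pos rfl, mul_one] at hco
      rcases mul_eq_zero.1 hco with h5 | h5
      · exact h5
      · have h6 : n.choose (2 * t0 + 1) ≠ 0 := (Nat.choose_pos (by omega)).ne'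
        exact absurd (by exact_mod_cast h5) h6
    · intro t _ hne
      rw [coeff_C_mul, coeff_X_pow, if_neg (by omega), mul_zero]
    · intro hh
      exact absurd (Finset.mem_range.2 ht0) hh
  · rw [hb1]
    refine natDegree_sum_le_of_forall_le _ _ fun t ht => ?_
    have ht' := Finset.mem_range.1 ht
    refine (natDegree_C_mul_le _ _).trans (natDegree_mul_le.trans ?_)
    have e1 : (X ^ (2 * m - 2 - 2 * t) : ℚ[X]).natDegree = 2 * m - 2 - 2 * t := natDegree_X_pow _
    have e2 : (1 + (X + 1) ^ (2 * t + 1) : ℚ[X]).natDegree ≤ 2 * t + 1 := by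
      refine (natDegree_add_le _ _).trans (max_le (by simp) ?_)
      refine natDegree_pow_le.trans ?_
      have : (X + 1 : ℚ[X]).natDegree = 1 := by simpa using natDegree_X_add_C (1 : ℚ)
      rw [this, mul_one]
    omega
  · rw [hb2]
    refine natDegree_sum_le_of_forall_le _ _ fun t ht => ?_
    have ht' := Finset.mem_range.1 ht
    refine (natDegree_C_mul_le _ _).trans ?_
    rw [natDegree_neg]
    refine (natDegree_add_le _ _).trans (max_le ?_ ?_)
    · rw [natDegree_X_pow]
      omega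
    · refine natDegree_pow_le.trans ?_
      have : (X + 1 : ℚ[X]).natDegree = 1 := by simpa using natDegree_X_add_C (1 : ℚ)
      rw [this, mul_one]
      omega
  · rw [hb3]
    refine natDegree_sum_le_of_forall_le _ _ fun t ht => ?_
    have ht' := Finset.mem_range.1 ht
    refine (natDegree_C_mul_le _ _).trans (natDegree_mul_le.trans ?_)
    have e1 : ((X + 1) ^ (2 * m - 2 - 2 * t) : ℚ[X]).natDegree ≤ 2 * m - 2 - 2 * t := by
      refine natDegree_pow_le.trans ?_
      have : (X + 1 : ℚ[X]).natDegree = 1 := by simpa using natDegree_X_add_C (1 : ℚ)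
      rw [this, mul_one]
    have e2 : (1 - X ^ (2 * t + 1) : ℚ[X]).natDegree ≤ 2 * t + 1 := by
      refine (natDegree_sub_le _ _).trans (max_le (by simp) ?_)
      rw [natDegree_X_pow]
    omega

end Pool.Agent.Y759.DS
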