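import Pool.Agent.Y759.DS.Quot
import Pool.Agent.Y759.DS.Rank

/-! Subspaces of `dm` containing the elements of depth one and their brackets. -/

set_option autoImplicit false

namespace Pool.Agent.Y759.DS

open Pool.Agent.H777R4.DM

/-- evaluation at the detecting words -/
noncomputable def Ev (N m : ℕ) : A →ₗ[ℚ] (Fin m → ℚ) where
  toFun ψ t := co ψ (0 :: (List.replicate (N - 3 - 2 * (t : ℕ)) 1
    ++ 0 :: List.replicate (2 * (t : ℕ) + 1) 1))
  map_add' ψ φ := by funext s; simp [co_add]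
  map_smul' c ψ := by funext s; simp [co_smul]

theorem onto (N m : ℕ) (hN : Even N) (hm : 6 * m ≤ N - 2) (V : Submodule ℚ A)
    (h : ∀ p, Even p → 2 ≤ p → p + 2 ≤ N - 2 → ∃ τ ∈ V, ∃ r : ℚ, r ≠ 0 ∧
      ∀ t < m, co τ (0 :: (List.replicate (N - 3 - 2 * t) 1 ++ 0 :: List.replicate (2 * t + 1) 1))
        = r * ((p.choose (2 * t + 1) : ℚ) - ((N - 2 - p).choose (2 * t + 1) : ℚ)
        + ((N - 2 - p).choose (N - 2 - (2 * t + 1)) : ℚ) - (p.choose (N - 2 - (2 * t + 1)) : ℚ)))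
    (ψ : A) : ∃ φ ∈ V, Ev N m φ = Ev N m ψ := by
  suffices hT : V.map (Ev N m) = ⊤ by
    have : Ev N m ψ ∈ V.map (Ev N m) := by rw [hT]; trivial
    obtain ⟨φ, hφ, he⟩ := this
    exact ⟨φ, hφ, he⟩
  by_contra hne
  obtain ⟨f, hf0, hf⟩ := Submodule.exists_le_ker_of_lt_top _ (lt_top_iff_ne_top.2 hne)
  apply hf0
  set c : ℕ → ℚ := fun t => if h : t < m then f (fun j => if (⟨t, h⟩ : Fin m) = j then 1 else 0)
    else 0 with hc
  have hn : Even (N - 2) := by
    rcases Nat.lt_or_ge N 2 with h2 | h2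
    · rw [Nat.sub_eq_zero_of_le h2.le]
      exact Even.zero
    · exact (Nat.even_sub h2).2 (iff_of_true hN even_two)
  have hcz := rank_key (N - 2) m hn hm c (by
    intro p hp h2 hp2
    obtain ⟨τ, hτ, r, hr, hco⟩ := h p hp h2 hp2
    have hk : f (Ev N m τ) = 0 := LinearMap.mem_ker.1 (hf (Submodule.mem_map_of_mem hτ))
    rw [LinearMap.pi_apply_eq_sum_univ] at hk
    rw [Finset.sum_range]
    have : r * ∑ t : Fin m, c t * (((p.choose (2 * (t : ℕ) + 1) : ℚ)
        - ((N - 2 - p).choose (2 * (t : ℕ) + 1) : ℚ)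
        + ((N - 2 - p).choose (N - 2 - (2 * (t : ℕ) + 1)) : ℚ)
        - (p.choose (N - 2 - (2 * (t : ℕ) + 1)) : ℚ))) = 0 := by
      rw [← hk, Finset.mul_sum]
      refine Finset.sum_congr rfl fun t _ => ?_
      have e1 : Ev N m τ t = _ := hco t t.2
      have e2 : c t = f (fun j => if t = j then 1 else 0) := by
        rw [hc]
        simp only [t.2, dif_pos, Fin.eta]
      rw [e1, ← e2, smul_eq_mul]
      ring
    exact (mul_eq_zero.1 this).resolve_left hr)
  refine LinearMap.ext fun v => ?_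
  rw [LinearMap.pi_apply_eq_sum_univ, LinearMap.zero_apply]
  refine Finset.sum_eq_zero fun t _ => ?_
  have e := hcz t t.2
  rw [hc] at e
  simp only [t.2, dif_pos, Fin.eta] at e
  rw [e, smul_zero]

end Pool.Agent.Y759.DS
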