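import Pool.Agent.Y759.DS.Gm

/-! Relations between words with few letters `x₀`. -/

set_option autoImplicit false

namespace Pool.Agent.Y759.DS

open Pool.Agent.H777R4.DM

theorem odd_sum (g : Submodule ℚ A) {N : ℕ} (hN : Odd N) (_h3 : 3 ≤ N)
    (hg : ∃ σ ∈ g, IsDM σ ∧ (∀ u, co σ u ≠ 0 → u.length = N) ∧
      co σ (List.replicate (N - 1) 0 ++ [1]) ≠ 0)
    {ψ : A} (h : IsDM ψ) (hψ : ∀ u, co ψ u ≠ 0 → u.length = N) :
    ∃ φ ∈ g, IsDM φ ∧ (∀ u, co φ u ≠ 0 → u.length = N) ∧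
      ∀ u, co (ψ - φ) u ≠ 0 → 3 ≤ u.count 0 := by
  obtain ⟨σ, hσ, hσd, hσl, hσc⟩ := hg
  set r : ℚ := co ψ (List.replicate (N - 1) 0 ++ [1]) / co σ (List.replicate (N - 1) 0 ++ [1])
  have hl : ∀ u, co (r • σ) u ≠ 0 → u.length = N := by
    intro u hu
    refine hσl u fun h' => hu ?_
    rw [co_smul, h', mul_zero]
  refine ⟨r • σ, g.smul_mem r hσ, isDM_smul hσd r, hl, ?_⟩
  have hs : IsDM (ψ - r • σ) := by
    have e : ψ - r • σ = ψ + (-r) • σ := by rw [neg_smul, sub_eq_add_neg]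
    rw [e]
    exact isDM_add h (isDM_smul hσd (-r))
  refine Y759.QS.filt_odd hs ?_ hN ?_
  · intro u hu
    rw [co_sub] at hu
    by_cases h1 : co ψ u = 0
    · refine hl u fun h' => hu ?_
      rw [h1, h', sub_zero]
    · exact hψ u h1
  · have e : co (ψ - r • σ) (List.replicate (N - 1) 0 ++ [1]) = 0 := by
      rw [co_sub, co_smul, div_mul_cancel₀ _ hσc, sub_self]
    exact e

theorem even_sum (g : Submodule ℚ A) (hgd : ∀ φ ∈ g, IsDM φ) {N : ℕ} (hN : Even N)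
    (hg : ∀ p, Even p → 2 ≤ p → p + 2 ≤ N - 2 → ∃ τ ∈ g, (∀ u, co τ u ≠ 0 → u.length = N) ∧
      ∃ r : ℚ, r ≠ 0 ∧ ∀ i j, Odd j → i + j = N - 2 →
        co τ (0 :: (List.replicate i 1 ++ 0 :: List.replicate j 1))
        = r * ((p.choose j : ℚ) - ((N - 2 - p).choose j : ℚ)
        + ((N - 2 - p).choose i : ℚ) - (p.choose i : ℚ)))
    {ψ : A} (h : IsDM ψ) (hψ : ∀ u, co ψ u ≠ 0 → u.length = N) :
    ∃ φ ∈ g, IsDM φ ∧ (∀ u, co φ u ≠ 0 → u.length = N) ∧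
      ∀ u, co (ψ - φ) u ≠ 0 → 4 ≤ u.count 0 := by
  let V : Submodule ℚ A :=
    { carrier := {φ | φ ∈ g ∧ ∀ u, co φ u ≠ 0 → u.length = N}
      add_mem' := by
        rintro a b ⟨ha, ha'⟩ ⟨hb, hb'⟩
        refine ⟨g.add_mem ha hb, fun u hu => ?_⟩
        rw [co_add] at hu
        by_cases h1 : co a u = 0
        · refine hb' u fun h' => hu ?_
          rw [h1, h', add_zero]
        · exact ha' u h1
      zero_mem' := ⟨g.zero_mem, fun u hu => absurd (co_zero u) hu⟩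
      smul_mem' := by
        rintro c a ⟨ha, ha'⟩
        refine ⟨g.smul_mem c ha, fun u hu => ha' u fun h' => hu ?_⟩
        rw [co_smul, h', mul_zero] }
  obtain ⟨φ, ⟨hφ, hφl⟩, he⟩ := onto N ((N - 2) / 6) hN (by omega) V (by
    intro p hp h2 hp2
    obtain ⟨τ, hτ, hτl, r, hr, hco⟩ := hg p hp h2 hp2
    refine ⟨τ, ⟨hτ, hτl⟩, r, hr, fun t ht => ?_⟩
    have := hco (N - 3 - 2 * t) (2 * t + 1) ⟨t, rfl⟩ (by omega)
    rw [this]
    have e : N - 3 - 2 * t = N - 2 - (2 * t + 1) := by omega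
    rw [e]) ψ
  refine ⟨φ, hφ, hgd φ hφ, hφl, ?_⟩
  have hs : IsDM (ψ - φ) := by
    have e : ψ - φ = ψ + (-1 : ℚ) • φ := by rw [neg_one_smul, sub_eq_add_neg]
    rw [e]
    exact isDM_add h (isDM_smul (hgd φ hφ) (-1))
  refine Y759.QS.filt_even hs ?_ hN ?_
  · intro u hu
    rw [co_sub] at hu
    by_cases h1 : co ψ u = 0
    · refine hφl u fun h' => hu ?_
      rw [h1, h', sub_zero]
    · exact hψ u h1
  · intro j hj
    have e := congrFun he ⟨j, hj⟩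
    have e' : co φ (0 :: (List.replicate (N - 3 - 2 * j) 1 ++ 0 :: List.replicate (2 * j + 1) 1))
      = co ψ (0 :: (List.replicate (N - 3 - 2 * j) 1 ++ 0 :: List.replicate (2 * j + 1) 1)) := e
    rw [co_sub, e', sub_self]

end Pool.Agent.Y759.DS
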