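import Mathlib.Algebra.BigOperators.Group.List.Basic
import Mathlib.Data.Rat.Defs
import Mathlib.Tactic

/-!
# Quasi-symmetric coinvariants

A functional `h` on the monomials of degree `m` in `n` variables (lists of length `n` and sum `m`)
that kills all multiples of the quasi-symmetric polynomials without constant term vanishes if
`n ≤ m` (Aval, F. Bergeron and N. Bergeron; here with a short direct proof).
-/

set_option autoImplicit false

namespace Pool.Agent.Y759.QS

/-- `st h β c` is the sum of the values of `h` at the lists obtained from `β` by adding the entries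
of `c`, in this order, at positions `i₁ < i₂ < ⋯`. -/
def st (h : List ℕ → ℚ) : List ℕ → List ℕ → ℚ
  | [], [] => h []
  | [], _ :: _ => 0
  | b :: β, [] => h (b :: β)
  | b :: β, c :: cs => st (fun l => h (b :: l)) β (c :: cs) + st (fun l => h ((b + c) :: l)) β cs

/-- `wk h β c` is the sum of the values of `h` at the lists obtained from `β` by adding the entries
of `c`, in this order, at positions `i₁ ≤ i₂ ≤ ⋯`. -/
def wk (h : List ℕ → ℚ) : List ℕ → List ℕ → ℚ
  | [], [] => h []
  | [], _ :: _ => 0
  | b :: β, [] => h (b :: β)
  | b :: β, c :: cs => wk (fun l => h (b :: l)) β (c :: cs) + wk h ((b + c) :: β) cs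
termination_by β c => β.length + c.length

theorem st_nil (h : List ℕ → ℚ) (β : List ℕ) : st h β [] = h β := by
  cases β <;> simp [st]

theorem wk_nil (h : List ℕ → ℚ) (β : List ℕ) : wk h β [] = h β := by
  cases β <;> simp [wk]

theorem wk_nil_cons (h : List ℕ → ℚ) (c : ℕ) (cs : List ℕ) : wk h [] (c :: cs) = 0 := by
  simp [wk]

theorem wk_cons (h : List ℕ → ℚ) (b : ℕ) (β : List ℕ) (c : ℕ) (cs : List ℕ) :
    wk h (b :: β) (c :: cs) = wk (fun l => h (b :: l)) β (c :: cs) + wk h ((b + c) :: β) cs := by
  rw [wk]

/-- the coarsenings of a composition -/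
def cz : List ℕ → List (List ℕ)
  | [] => [[]]
  | [c] => [[c]]
  | c :: d :: ds => (cz (d :: ds)).map (c :: ·) ++ cz ((c + d) :: ds)
termination_by c => c.length

/-- the sum of `F (first part) (other parts)` over the coarsenings of a nonempty composition -/
def sz (F : ℕ → List ℕ → ℚ) (c : ℕ) (cs : List ℕ) : ℚ :=
  ((cz (c :: cs)).map fun l => F (l.headD 0) l.tail).sum

theorem sz_nil (F : ℕ → List ℕ → ℚ) (c : ℕ) : sz F c [] = F c [] := by
  simp [sz, cz]

theorem sz_cons (F : ℕ → List ℕ → ℚ) (c d : ℕ) (ds : List ℕ) :
    sz F c (d :: ds) = ((cz (d :: ds)).map fun l => F c l).sum + sz F (c + d) ds := by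
  simp [sz, cz, List.map_map, Function.comp_def]

theorem cz_ne_nil : ∀ (n c : ℕ) (cs : List ℕ), cs.length = n → ∀ l ∈ cz (c :: cs), l ≠ [] := by
  intro n
  induction n with
  | zero =>
    intro c cs hn l hl
    rw [List.length_eq_zero_iff] at hn
    subst hn
    simp [cz] at hl
    rw [hl]
    simp
  | succ n ih =>
    intro c cs hn l hl
    obtain ⟨d, ds, rfl⟩ := List.exists_cons_of_length_eq_add_one hn
    rw [cz, List.mem_append] at hl
    rcases hl with hl | hl
    · rw [List.mem_map] at hl
      obtain ⟨l', _, rfl⟩ := hl
      simp
    · exact ih (c + d) ds (by simpa using hn) l hl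

theorem cz_pos : ∀ (n c : ℕ) (cs : List ℕ), cs.length = n → 0 < c → (∀ x ∈ cs, 0 < x) →
    ∀ l ∈ cz (c :: cs), (∀ x ∈ l, 0 < x) ∧ l.sum = c + cs.sum := by
  intro n
  induction n with
  | zero =>
    intro c cs hn hc _ l hl
    rw [List.length_eq_zero_iff] at hn
    subst hn
    simp [cz] at hl
    rw [hl]
    simpa using hc
  | succ n ih =>
    intro c cs hn hc hcs l hl
    obtain ⟨d, ds, rfl⟩ := List.exists_cons_of_length_eq_add_one hn
    have hd : 0 < d := hcs d (by simp)
    have hds : ∀ x ∈ ds, 0 < x := fun x hx => hcs x (by simp [hx])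
    rw [cz, List.mem_append] at hl
    rcases hl with hl | hl
    · rw [List.mem_map] at hl
      obtain ⟨l', hl', rfl⟩ := hl
      obtain ⟨h1, h2⟩ := ih d ds (by simpa using hn) hd hds l' hl'
      refine ⟨?_, ?_⟩
      · intro x hx
        rcases List.mem_cons.1 hx with rfl | hx
        · exact hc
        · exact h1 x hx
      · simp [h2]
    · obtain ⟨h1, h2⟩ := ih (c + d) ds (by simpa using hn) (by omega) hds l hl
      refine ⟨h1, ?_⟩
      rw [h2]
      simp
      omega

/-- the weakly increasing sums are the sums over the coarsenings of the strictly increasing ones -/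
theorem wk_eq (β : List ℕ) : ∀ (h : List ℕ → ℚ) (c : List ℕ),
    wk h β c = ((cz c).map (st h β)).sum := by
  induction β with
  | nil =>
    intro h c
    cases c with
    | nil => simp [wk, cz, st]
    | cons c cs =>
      rw [wk_nil_cons, eq_comm]
      apply List.sum_eq_zero
      intro x hx
      rw [List.mem_map] at hx
      obtain ⟨l, hl, rfl⟩ := hx
      have := cz_ne_nil _ c cs rfl l hl
      cases l with
      | nil => exact absurd rfl this
      | cons a l => rfl
  | cons b β ih =>
    intro h c
    cases c with
    | nil => simp [wk_nil, cz, st_nil]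
    | cons c cs =>
      -- the part where the first block is added to `b`
      have key : ∀ (n c : ℕ) (cs : List ℕ), cs.length = n →
          sz (fun x l => st (fun t => h ((b + x) :: t)) β l) c cs = wk h ((b + c) :: β) cs := by
        intro n
        induction n with
        | zero =>
          intro c cs hn
          rw [List.length_eq_zero_iff] at hn
          subst hn
          rw [sz_nil, st_nil, wk_nil]
        | succ n ihn =>
          intro c cs hn
          obtain ⟨d, ds, rfl⟩ := List.exists_cons_of_length_eq_add_one hn
          rw [sz_cons, wk_cons, ihn (c + d) ds (by simpa using hn), ih, add_assoc]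
      rw [wk_cons, ih, ← key _ c cs rfl, sz, ← List.sum_map_add]
      apply congrArg
      apply List.map_congr_left
      intro l hl
      have := cz_ne_nil _ c cs rfl l hl
      cases l with
      | nil => exact absurd rfl this
      | cons a l => rfl

/-- `wk` only sees the values at the lists of the right length and sum -/
theorem wk_zero_of (n : ℕ) : ∀ (β : List ℕ) (c : List ℕ) (h : List ℕ → ℚ),
    β.length + c.length = n → (∀ l : List ℕ, l.length = β.length → l.sum = β.sum + c.sum → h l = 0) →
    wk h β c = 0 := by
  induction n with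
  | zero =>
    intro β c h hn hh
    have h1 : β = [] := List.length_eq_zero_iff.1 (by omega)
    have h2 : c = [] := List.length_eq_zero_iff.1 (by omega)
    subst h1 h2
    rw [wk_nil]
    exact hh [] rfl rfl
  | succ n ih =>
    intro β c h hn hh
    cases c with
    | nil => rw [wk_nil]; exact hh β rfl (by simp)
    | cons c cs =>
      cases β with
      | nil => exact wk_nil_cons h c cs
      | cons b β =>
        rw [wk_cons, ih β (c :: cs) _ (by simp at hn ⊢; omega), ih ((b + c) :: β) cs h
          (by simp at hn ⊢; omega), add_zero]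
        · intro l h1 h2
          refine hh l (by simpa using h1) ?_
          simp at h2 ⊢
          omega
        · intro l h1 h2
          refine hh (b :: l) (by simpa using h1) ?_
          simp at h2 ⊢
          omega

/-- the weakly increasing sums with at least `k` parts vanish -/
def K (n k m : ℕ) (h : List ℕ → ℚ) : Prop :=
  ∀ β : List ℕ, β.length = n → ∀ c : List ℕ, k ≤ c.length → (∀ x ∈ c, 0 < x) →
    β.sum + c.sum = m → wk h β c = 0

/-- add one to the first entry -/
def up (h : List ℕ → ℚ) : List ℕ → ℚ
  | [] => 0
  | a :: l => h ((a + 1) :: l)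

theorem wk_up (c : List ℕ) : ∀ (h : List ℕ → ℚ) (b : ℕ) (β : List ℕ),
    wk (up h) (b :: β) c = wk h ((b + 1) :: β) c := by
  induction c with
  | nil => intro h b β; simp [wk_nil, up]
  | cons c cs ih =>
    intro h b β
    rw [wk_cons, wk_cons, ih, show b + c + 1 = b + 1 + c by omega]
    rfl

/-- the main lemma -/
theorem van (n : ℕ) : ∀ (k m : ℕ) (h : List ℕ → ℚ), n + k ≤ m + 1 → (n = 0 → 1 ≤ m) → K n k m h →
    ∀ a : List ℕ, a.length = n → a.sum = m → h a = 0 := by
  induction n with
  | zero =>
    intro k m h _ hm _ a ha hs
    rw [List.length_eq_zero_iff] at ha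
    subst ha
    simp at hs
    omega
  | succ n ih =>
    intro k
    induction k with
    | zero =>
      intro m h _ _ hK a ha hs
      have := hK a ha [] (Nat.zero_le _) (by simp) (by simpa using hs)
      rwa [wk_nil] at this
    | succ k ihk =>
      intro m h hmn _ hK
      -- the values at the lists that begin with zero vanish
      have h0 : ∀ l : List ℕ, l.length = n → l.sum = m → h (0 :: l) = 0 := by
        refine ih (k + 2) m (fun l => h (0 :: l)) (by omega) (fun _ => by omega) ?_
        intro β hβ c hc hpos hsum
        cases c with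
        | nil => simp at hc
        | cons c₁ c =>
          have e1 := hK (0 :: β) (by simpa using hβ) (c₁ :: c) (by simp at hc ⊢; omega) hpos
            (by simpa using hsum)
          rw [wk_cons] at e1
          have e2 := hK ((0 + c₁) :: β) (by simpa using hβ) c (by simp at hc ⊢; omega)
            (fun x hx => hpos x (by simp [hx])) (by simp at hsum ⊢; omega)
          rw [e2, add_zero] at e1
          exact e1
      -- the other values
      have h1 : ∀ a : List ℕ, a.length = n + 1 → a.sum = m - 1 → up h a = 0 := by
        refine ihk (m - 1) (up h) (by omega) (fun h => by omega) ?_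
        intro β hβ c hc hpos hsum
        obtain ⟨b, β', rfl⟩ := List.exists_cons_of_length_eq_add_one hβ
        rw [wk_up]
        have hm : 1 ≤ m := by omega
        rcases Nat.lt_or_ge k c.length with hlt | hge
        · refine hK _ (by simpa using hβ) c hlt hpos ?_
          simp at hsum ⊢
          omega
        · have e1 := hK (0 :: β') (by simpa using hβ) ((b + 1) :: c) (by simp; omega)
            (by
              intro x hx
              rcases List.mem_cons.1 hx with rfl | hx
              · omega
              · exact hpos x hx) (by simp at hsum ⊢; omega)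
          rw [wk_cons, wk_zero_of _ β' ((b + 1) :: c) _ rfl, zero_add, zero_add] at e1
          · exact e1
          · intro l hl hs
            refine h0 l ?_ ?_
            · simp at hβ
              omega
            · simp at hs hsum
              omega
      intro a ha hs
      obtain ⟨a₁, a', rfl⟩ := List.exists_cons_of_length_eq_add_one ha
      rcases Nat.eq_zero_or_pos a₁ with rfl | hp
      · exact h0 a' (by simpa using ha) (by simpa using hs)
      · obtain ⟨a₂, rfl⟩ := Nat.exists_eq_add_of_le hp
        have := h1 (a₂ :: a') (by simpa using ha) (by simp at hs ⊢; omega)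
        simpa [up, add_comm] using this

theorem st_long (β : List ℕ) : ∀ (h : List ℕ → ℚ) (c : List ℕ), β.length < c.length →
    st h β c = 0 := by
  induction β with
  | nil =>
    intro h c hc
    cases c with
    | nil => simp at hc
    | cons a c => rfl
  | cons b β ih =>
    intro h c hc
    cases c with
    | nil => simp at hc
    | cons a c =>
      simp only [List.length_cons] at hc
      rw [st, ih _ _ (by simp; omega), ih _ _ (by omega), add_zero]

/-- the lists with one entry `0` and the other entries `1` -/
def bs : ℕ → List (List ℕ)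
  | 0 => []
  | n + 1 => (0 :: List.replicate n 1) :: (bs n).map (1 :: ·)

/-- the lists with one entry `2` and the other entries `1` -/
def cs : ℕ → List (List ℕ)
  | 0 => []
  | n + 1 => (2 :: List.replicate n 1) :: (cs n).map (1 :: ·)

theorem bs_spec (n : ℕ) : ∀ l ∈ bs n, l.length = n ∧ l.sum + 1 = n := by
  induction n with
  | zero => simp [bs]
  | succ n ih =>
    intro l hl
    rw [bs, List.mem_cons, List.mem_map] at hl
    rcases hl with rfl | ⟨l', hl', rfl⟩
    · simp
    · have := ih l' hl'
      simp
      omega

theorem cs_spec (n : ℕ) : ∀ l ∈ cs n, l.length = n ∧ l.sum = n + 1 ∧ ∀ x ∈ l, 0 < x := by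
  induction n with
  | zero => simp [cs]
  | succ n ih =>
    intro l hl
    rw [cs, List.mem_cons, List.mem_map] at hl
    rcases hl with rfl | ⟨l', hl', rfl⟩
    · refine ⟨by simp, by simp; omega, ?_⟩
      intro x hx
      rw [List.mem_cons, List.mem_replicate] at hx
      omega
    · obtain ⟨h1, h2, h3⟩ := ih l' hl'
      refine ⟨by simp [h1], by simp [h2]; omega, ?_⟩
      intro x hx
      rcases List.mem_cons.1 hx with rfl | hx
      · exact Nat.one_pos
      · exact h3 x hx

theorem cs_ne (n : ℕ) : ∀ l ∈ cs n, ∀ k, l ≠ List.replicate k 1 := by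
  intro l hl k hk
  have h1 := cs_spec n l hl
  rw [hk] at h1
  simp at h1
  omega

theorem st_full (c : List ℕ) : ∀ g : List ℕ → ℚ, st g (List.replicate c.length 0) c = g c := by
  induction c with
  | nil => intro g; rfl
  | cons a c ih =>
    intro g
    rw [List.length_cons, List.replicate_succ, st, ih, st_long _ _ _ (by simp), zero_add, zero_add]

theorem st_ones_one (n : ℕ) : ∀ g : List ℕ → ℚ,
    st g (List.replicate n 1) [1] = ((cs n).map g).sum := by
  induction n with
  | zero => intro g; simp [cs, st]
  | succ n ih =>
    intro g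
    rw [List.replicate_succ, st, ih, st_nil, cs, List.map_cons, List.sum_cons, List.map_map,
      add_comm]
    rfl

theorem st_zeros_ones (n : ℕ) : ∀ g : List ℕ → ℚ,
    st g (List.replicate (n + 1) 0) (List.replicate n 1) = ((bs (n + 1)).map g).sum := by
  induction n with
  | zero => intro g; simp [bs, st]
  | succ n ih =>
    intro g
    have h1 := st_full (List.replicate (n + 1) 1) fun l => g (0 :: l)
    rw [List.length_replicate] at h1
    have e : List.replicate (n + 1) 1 = 1 :: List.replicate n 1 := rfl
    have e2 : ((bs (n + 1 + 1)).map g).sum = g (0 :: List.replicate (n + 1) 1) +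
        ((bs (n + 1)).map fun l => g (1 :: l)).sum := by
      rw [bs, List.map_cons, List.sum_cons, List.map_map]
      rfl
    rw [List.replicate_succ (n := n + 1), e, st, ← e, h1, ih, e2]

/-- the identity `M_1 M_{1⋯1} = n M_{1⋯1} + ∑ M_{1⋯2⋯1}` in `n` variables -/
theorem ones_id (n : ℕ) : ∀ h : List ℕ → ℚ,
    ((bs (n + 1)).map fun β => st h β [1]).sum = (n + 1 : ℕ) * h (List.replicate (n + 1) 1) +
      ((cs n).map fun c => st h (List.replicate (n + 1) 0) c).sum := by
  induction n with
  | zero => intro h; simp [bs, cs, st]
  | succ n ih =>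
    intro h
    have ih' := ih fun l => h (1 :: l)
    rw [bs, List.map_cons, List.sum_cons, List.map_map]
    have e1 : ((fun β => st h β [1]) ∘ fun x => 1 :: x) =
        fun β => st (fun l => h (1 :: l)) β [1] + h (2 :: β) := by
      funext β
      show st h (1 :: β) [1] = _
      rw [st, st_nil]
    rw [e1, List.sum_map_add, ih', st, st_nil, st_ones_one]
    have e2 : ∀ c ∈ cs (n + 1), st h (List.replicate (n + 1 + 1) 0) c =
        h (0 :: c) + st (fun l => h ((c.headD 0) :: l)) (List.replicate (n + 1) 0) c.tail := by
      intro c hc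
      have hl := (cs_spec _ c hc).1
      obtain ⟨a, c', rfl⟩ := List.exists_cons_of_length_eq_add_one hl
      have h1 := st_full (a :: c') fun l => h (0 :: l)
      rw [hl] at h1
      rw [List.replicate_succ, st, h1, zero_add]
      rfl
    rw [List.map_congr_left e2, List.sum_map_add]
    have e3 : ((cs (n + 1)).map fun c =>
        st (fun l => h ((c.headD 0) :: l)) (List.replicate (n + 1) 0) c.tail).sum =
        ((bs (n + 1)).map fun l => h (2 :: l)).sum +
          ((cs n).map fun c => st (fun l => h (1 :: l)) (List.replicate (n + 1) 0) c).sum := by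
      rw [cs, List.map_cons, List.sum_cons, List.map_map, ← st_zeros_ones]
      rfl
    rw [e3]
    have e4 : (0 : ℕ) + 1 = 1 := rfl
    have e5 : (1 : ℕ) :: List.replicate (n + 1) 1 = List.replicate (n + 1 + 1) 1 := rfl
    rw [e4]
    simp only [e5]
    push_cast
    ring

/-- A functional on the polynomials of degree `m` in `n ≤ m` variables that kills the multiples of
the quasi-symmetric polynomials without constant term vanishes. -/
theorem qsym_zero (n m : ℕ) (hn : n ≤ m) (hm : 1 ≤ m) (h : List ℕ → ℚ)
    (hh : ∀ β : List ℕ, β.length = n → ∀ c : List ℕ, c ≠ [] → (∀ x ∈ c, 0 < x) →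
      β.sum + c.sum = m → st h β c = 0) (a : List ℕ) (ha : a.length = n) (hs : a.sum = m) :
    h a = 0 := by
  refine van n 1 m h (by omega) (fun _ => hm) ?_ a ha hs
  intro β hβ c hc hpos hsum
  rw [wk_eq]
  apply List.sum_eq_zero
  intro x hx
  rw [List.mem_map] at hx
  obtain ⟨l, hl, rfl⟩ := hx
  cases c with
  | nil => simp at hc
  | cons c₁ c =>
    obtain ⟨h1, h2⟩ := cz_pos _ c₁ c rfl (hpos c₁ (by simp)) (fun x hx => hpos x (by simp [hx])) l hl
    refine hh β hβ l (cz_ne_nil _ c₁ c rfl l hl) h1 ?_
    rw [h2]
    simpa using hsum

/-- The same; the relation of the elementary symmetric polynomial is not needed. -/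
theorem qsym_zero' (n m : ℕ) (hn : n ≤ m) (hm : 2 ≤ m) (h : List ℕ → ℚ)
    (hh : ∀ β : List ℕ, β.length = n → ∀ c : List ℕ, c ≠ [] → (∀ x ∈ c, 0 < x) →
      β.sum + c.sum = m → (β.sum ≠ 0 ∨ c ≠ List.replicate m 1) → st h β c = 0)
    (a : List ℕ) (ha : a.length = n) (hs : a.sum = m) : h a = 0 := by
  refine qsym_zero n m hn (by omega) h ?_ a ha hs
  intro β hβ c hc hpos hsum
  by_cases hex : β.sum ≠ 0 ∨ c ≠ List.replicate m 1
  · exact hh β hβ c hc hpos hsum hex
  · push Not at hex
    obtain ⟨h1, rfl⟩ := hex
    have hβ0 : β = List.replicate n 0 := by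
      rw [List.eq_replicate_iff]
      refine ⟨hβ, fun x hx => ?_⟩
      have := List.le_sum_of_mem hx
      omega
    subst hβ0
    rcases Nat.lt_or_ge n m with hlt | hge
    · exact st_long _ _ _ (by simpa using hlt)
    · have hnm : n = m := le_antisymm hn hge
      subst hnm
      have h2 := st_full (List.replicate n 1) h
      rw [List.length_replicate] at h2
      rw [h2]
      obtain ⟨k, rfl⟩ := Nat.exists_eq_add_of_le hm
      have h3 := ones_id (1 + k) h
      have e : 1 + k + 1 = 2 + k := by omega
      rw [e] at h3
      have h4 : ((bs (2 + k)).map fun β => st h β [1]).sum = 0 := by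
        apply List.sum_eq_zero
        intro x hx
        rw [List.mem_map] at hx
        obtain ⟨l, hl, rfl⟩ := hx
        have h5 := bs_spec _ l hl
        refine hh l h5.1 [1] (by simp) (by simp) (by simp; omega) (Or.inl ?_)
        omega
      have h6 : ((cs (1 + k)).map fun c => st h (List.replicate (2 + k) 0) c).sum = 0 := by
        apply List.sum_eq_zero
        intro x hx
        rw [List.mem_map] at hx
        obtain ⟨l, hl, rfl⟩ := hx
        have h5 := cs_spec _ l hl
        refine hh _ (by simp) l ?_ h5.2.2 (by simp; omega) (Or.inr (cs_ne _ l hl _))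
        rintro rfl
        simp at h5
      rw [h4, h6, add_zero] at h3
      have h7 : ((2 + k : ℕ) : ℚ) ≠ 0 := by positivity
      exact (mul_eq_zero.1 h3.symm).resolve_left h7

end Pool.Agent.Y759.QS
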