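import Pool.Agent.Y759.DS.QS

/-!
# Quasi-symmetric coinvariants: ballot exponents

A functional on the monomials of degree `m` in `n` variables that kills the multiples of the
quasi-symmetric polynomials without constant term and vanishes at the monomials with exponents
`a₁ + ⋯ + a_i < i` for all `i` vanishes. The relation of the elementary symmetric polynomial of
degree `m ≥ 2` is not needed.
-/

set_option autoImplicit false

namespace Pool.Agent.Y759.QS

/-- `a₁ + ⋯ + a_i < i + k - 1` for `1 ≤ i ≤ length a` -/
def Bal (k : ℕ) (a : List ℕ) : Prop := ∀ i < a.length, (a.take (i + 1)).sum < i + k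

theorem bal_nil (k : ℕ) : Bal k [] := fun i hi => absurd hi (Nat.not_lt_zero i)

theorem bal_zero_cons {k : ℕ} {l : List ℕ} (h : Bal (k + 1) l) (hk : 0 < k) : Bal k (0 :: l) := by
  intro i hi
  cases i with
  | zero => simpa using hk
  | succ i =>
    have := h i (by simpa using hi)
    simp only [List.take_succ_cons, List.sum_cons] at this ⊢
    omega

theorem bal_succ_cons {k a : ℕ} {l : List ℕ} (h : Bal k (a :: l)) : Bal (k + 1) ((a + 1) :: l) := by
  intro i hi
  have := h i (by simpa using hi)
  simp only [List.take_succ_cons, List.sum_cons] at this ⊢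
  omega

/-- the main lemma -/
theorem van2 (n : ℕ) : ∀ (k m : ℕ) (h : List ℕ → ℚ), K n k m h →
    (∀ a : List ℕ, a.length = n → a.sum = m → Bal k a → h a = 0) →
    ∀ a : List ℕ, a.length = n → a.sum = m → h a = 0 := by
  induction n with
  | zero =>
    intro k m h _ hB a ha hs
    rw [List.length_eq_zero_iff] at ha
    subst ha
    exact hB [] rfl hs (bal_nil k)
  | succ n ih =>
    intro k
    induction k with
    | zero =>
      intro m h hK _ a ha hs
      have := hK a ha [] (Nat.zero_le _) (by simp) (by simpa using hs)
      rwa [wk_nil] at this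
    | succ k ihk =>
      intro m h hK hB
      -- the values at the lists that begin with zero vanish
      have h0 : ∀ l : List ℕ, l.length = n → l.sum = m → h (0 :: l) = 0 := by
        refine ih (k + 2) m (fun l => h (0 :: l)) ?_ ?_
        · intro β hβ c hc hpos hsum
          cases c with
          | nil => simp at hc
          | cons c₁ c =>
            have e1 := hK (0 :: β) (by simpa using hβ) (c₁ :: c) (by simp at hc ⊢; omega) hpos
              (by simpa using hsum)
            rw [wk_cons] at e1
            have e2 := hK ((0 + c₁) :: β) (by simpa using hβ) c (by simp at hc ⊢; omega)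
              (fun x hx => hpos x (by simp [hx])) (by simp at hsum ⊢; omega)
            rw [e2, add_zero] at e1
            exact e1
        · intro l hl hs hbal
          exact hB (0 :: l) (by simpa using hl) (by simpa using hs) (bal_zero_cons hbal (by omega))
      -- the other values
      have h1 : 1 ≤ m → ∀ a : List ℕ, a.length = n + 1 → a.sum = m - 1 → up h a = 0 := by
        intro hm
        refine ihk (m - 1) (up h) ?_ ?_
        · intro β hβ c hc hpos hsum
          obtain ⟨b, β', rfl⟩ := List.exists_cons_of_length_eq_add_one hβ
          rw [wk_up]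
          rcases Nat.lt_or_ge k c.length with hlt | hge
          · refine hK _ (by simpa using hβ) c hlt hpos ?_
            simp at hsum ⊢
            omega
          · have e1 := hK (0 :: β') (by simpa using hβ) ((b + 1) :: c) (by simp; omega)
              (by
                intro x hx
                rcases List.mem_cons.1 hx with rfl | hx
                · omega
                · exact hpos x hx) (by simp at hsum ⊢; omega)
            rw [wk_cons, wk_zero_of _ β' ((b + 1) :: c) _ rfl, zero_add, zero_add] at e1
            · exact e1
            · intro l hl hs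
              refine h0 l ?_ ?_
              · simp at hβ
                omega
              · simp at hs hsum
                omega
        · intro a ha hs hbal
          obtain ⟨a₁, a', rfl⟩ := List.exists_cons_of_length_eq_add_one ha
          show h ((a₁ + 1) :: a') = 0
          exact hB _ (by simpa using ha) (by simp at hs ⊢; omega) (bal_succ_cons hbal)
      intro a ha hs
      obtain ⟨a₁, a', rfl⟩ := List.exists_cons_of_length_eq_add_one ha
      rcases Nat.eq_zero_or_pos a₁ with rfl | hp
      · exact h0 a' (by simpa using ha) (by simpa using hs)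
      · obtain ⟨a₂, rfl⟩ := Nat.exists_eq_add_of_le hp
        have := h1 (by simp at hs; omega) (a₂ :: a') (by simpa using ha) (by simp at hs ⊢; omega)
        simpa [up, add_comm] using this

/-! ### the product with a power sum -/

theorem st_add (β : List ℕ) : ∀ (f g : List ℕ → ℚ) (c : List ℕ),
    st (fun l => f l + g l) β c = st f β c + st g β c := by
  induction β with
  | nil => intro f g c; cases c <;> simp [st]
  | cons b β ih =>
    intro f g c
    cases c with
    | nil => rfl
    | cons a c => rw [st, st, st, ih, ih]; ring

theorem st_zero_of (β : List ℕ) : ∀ (h : List ℕ → ℚ) (c : List ℕ),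
    (∀ l : List ℕ, l.length = β.length → l.sum = β.sum + c.sum → h l = 0) → st h β c = 0 := by
  induction β with
  | nil =>
    intro h c hh
    cases c with
    | nil => exact hh [] rfl rfl
    | cons a c => rfl
  | cons b β ih =>
    intro h c hh
    cases c with
    | nil => exact hh _ rfl (by simp)
    | cons a c =>
      rw [st, ih, ih, add_zero]
      · intro l h1 h2
        refine hh _ (by simpa using h1) ?_
        simp at h2 ⊢
        omega
      · intro l h1 h2
        refine hh _ (by simpa using h1) ?_
        simp at h2 ⊢
        omega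

/-- the sum of `F` over the compositions obtained from `c` by inserting `a` or adding `a` to an
entry -/
def J (a : ℕ) : List ℕ → (List ℕ → ℚ) → ℚ
  | [], F => F [a]
  | c :: cs, F => F (a :: c :: cs) + F ((c + a) :: cs) + J a cs (fun l => F (c :: l))

theorem J_add (a : ℕ) (c : List ℕ) : ∀ F G : List ℕ → ℚ,
    J a c (fun l => F l + G l) = J a c F + J a c G := by
  induction c with
  | nil => intro F G; rfl
  | cons b c ih => intro F G; rw [J, J, J, ih]; ring

theorem J_zero (a : ℕ) (c : List ℕ) : ∀ F : List ℕ → ℚ, (∀ l, l ≠ [] → F l = 0) → J a c F = 0 := by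
  induction c with
  | nil => intro F h; exact h _ (by simp)
  | cons b c ih =>
    intro F h
    rw [J, h _ (by simp), h _ (by simp), ih _ fun l _ => h _ (by simp)]
    ring

/-- the product of a quasi-symmetric monomial and a power sum -/
theorem st_mul (γ : List ℕ) : ∀ (h : List ℕ → ℚ) (a : ℕ) (c : List ℕ),
    st (fun β => st h β [a]) γ c = J a c (fun l => st h γ l) := by
  induction γ with
  | nil =>
    intro h a c
    cases c with
    | nil => rfl
    | cons b c =>
      rw [J_zero a (b :: c)]
      · rfl
      · intro l hl
        cases l with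
        | nil => exact absurd rfl hl
        | cons x l => rfl
  | cons b γ ih =>
    intro h a c
    cases c with
    | nil => rfl
    | cons c₁ c =>
      have e1 : ∀ x, (fun β => st h (x :: β) [a]) =
          fun β => st (fun l => h (x :: l)) β [a] + h ((x + a) :: β) := by
        intro x
        funext β
        rw [st, st_nil]
      rw [st]
      simp only [e1]
      rw [st_add, st_add, ih, ih, J, J]
      have e2 : (fun l => st h (b :: γ) (c₁ :: l)) =
          fun l => st (fun t => h (b :: t)) γ (c₁ :: l) + st (fun t => h ((b + c₁) :: t)) γ l := by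
        funext l
        rw [st]
      rw [e2, J_add, st, st, show b + (c₁ + a) = b + c₁ + a by omega]
      ring

theorem J_ones (n : ℕ) : ∀ F : List ℕ → ℚ,
    J 1 (List.replicate n 1) F = (n + 1 : ℕ) * F (List.replicate (n + 1) 1) +
      ((cs n).map F).sum := by
  induction n with
  | zero => intro F; simp [J, cs]
  | succ n ih =>
    intro F
    rw [List.replicate_succ, J, ih, cs, List.map_cons, List.sum_cons, List.map_map]
    have e5 : (1 : ℕ) :: List.replicate (n + 1) 1 = List.replicate (n + 1 + 1) 1 := rfl
    have e6 : (1 : ℕ) :: 1 :: List.replicate n 1 = List.replicate (n + 1 + 1) 1 := rfl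
    simp only [e5, e6]
    have e7 : (F ∘ fun x => 1 :: x) = fun l => F (1 :: l) := rfl
    rw [e7]
    push_cast
    ring

/-- **Quasi-symmetric coinvariants.** -/
theorem qsym_bal (n m : ℕ) (hm : 2 ≤ m) (h : List ℕ → ℚ)
    (hh : ∀ β : List ℕ, β.length = n → ∀ c : List ℕ, c ≠ [] → (∀ x ∈ c, 0 < x) →
      β.sum + c.sum = m → (β.sum ≠ 0 ∨ c ≠ List.replicate m 1) → st h β c = 0) :
    (∀ β : List ℕ, β.length = n → ∀ c : List ℕ, c ≠ [] → (∀ x ∈ c, 0 < x) →
      β.sum + c.sum = m → st h β c = 0) ∧
    ((∀ a : List ℕ, a.length = n → a.sum = m → Bal 1 a → h a = 0) →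
      ∀ a : List ℕ, a.length = n → a.sum = m → h a = 0) := by
  have hall : ∀ β : List ℕ, β.length = n → ∀ c : List ℕ, c ≠ [] → (∀ x ∈ c, 0 < x) →
      β.sum + c.sum = m → st h β c = 0 := by
    intro β hβ c hc hpos hsum
    by_cases hex : β.sum ≠ 0 ∨ c ≠ List.replicate m 1
    · exact hh β hβ c hc hpos hsum hex
    · push Not at hex
      obtain ⟨h1, rfl⟩ := hex
      obtain ⟨k, rfl⟩ := Nat.exists_eq_add_of_le hm
      have h3 := st_mul β h 1 (List.replicate (1 + k) 1)
      rw [J_ones, st_zero_of β] at h3
      · have h6 : ((cs (1 + k)).map fun c => st h β c).sum = 0 := by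
          apply List.sum_eq_zero
          intro x hx
          rw [List.mem_map] at hx
          obtain ⟨l, hl, rfl⟩ := hx
          have h5 := cs_spec _ l hl
          refine hh _ hβ l ?_ h5.2.2 (by omega) (Or.inr (cs_ne _ l hl _))
          rintro rfl
          simp at h5
        rw [h6, add_zero, show 1 + k + 1 = 2 + k by omega] at h3
        have h7 : ((2 + k : ℕ) : ℚ) ≠ 0 := by positivity
        exact (mul_eq_zero.1 h3.symm).resolve_left h7
      · intro l hl hs
        rw [List.sum_replicate, smul_eq_mul, mul_one] at hs
        refine hh l (hl.trans hβ) [1] (by simp) (by simp) (by simp; omega) (Or.inl ?_)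
        omega
  refine ⟨hall, fun hB => ?_⟩
  refine van2 n 1 m h ?_ hB
  intro β hβ c hc hpos hsum
  rw [wk_eq]
  apply List.sum_eq_zero
  intro x hx
  rw [List.mem_map] at hx
  obtain ⟨l, hl, rfl⟩ := hx
  cases c with
  | nil => simp at hc
  | cons c₁ c =>
    obtain ⟨h1, h2⟩ := cz_pos _ c₁ c rfl (hpos c₁ (by simp)) (fun x hx => hpos x (by simp [hx])) l hl
    refine hall β hβ l (cz_ne_nil _ c₁ c rfl l hl) h1 ?_
    rw [h2]
    simpa using hsum

end Pool.Agent.Y759.QS
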