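import Pool.Agent.Y759.DS.Filt2

/-!
# Quotients separated by coefficients
-/

set_option autoImplicit false

namespace Pool.Agent.Y759.QS

open Pool.Agent.H777R4.DM

/-- a quotient separated by the coefficients at the words of a finite set -/
theorem quot_le (V U : Submodule ℚ A) (S : Finset (List (Fin 2)))
    (h : ∀ ψ ∈ V, (∀ v ∈ S, co ψ v = 0) → ψ ∈ U) :
    Module.Finite ℚ (V ⧸ U.submoduleOf V) ∧
      Module.finrank ℚ (V ⧸ U.submoduleOf V) ≤ S.card := by
  let T : V →ₗ[ℚ] (S → ℚ) :=
    { toFun := fun ψ s => co ψ.1 s.1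
      map_add' := fun ψ φ => by funext s; simp [co_add]
      map_smul' := fun c ψ => by funext s; simp [co_smul] }
  have hT : LinearMap.ker T ≤ U.submoduleOf V := by
    intro ψ hψ
    refine h ψ.1 ψ.2 fun v hv => ?_
    exact congrFun (LinearMap.mem_ker.1 hψ) ⟨v, hv⟩
  have e := T.quotKerEquivRange
  have f1 : Module.Finite ℚ (V ⧸ LinearMap.ker T) := Module.Finite.equiv e.symm
  have hs := Submodule.factor_surjective hT
  refine ⟨Module.Finite.of_surjective _ hs, ?_⟩
  refine (LinearMap.finrank_le_finrank_of_surjective hs).trans ?_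
  rw [e.finrank_eq]
  refine (Submodule.finrank_le _).trans ?_
  simp

end Pool.Agent.Y759.QS
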