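import Pool.Agent.Y759.DS.Ballot2

/-!
# The coefficients at the ballot words span the coefficients on `dm`
-/

set_option autoImplicit false

namespace Pool.Agent.Y759.QS

open Pool.Agent.H777R4.DM

/-- the space `dm` -/
noncomputable def dmS : Submodule ℚ A where
  carrier := {ψ | IsDM ψ}
  add_mem' := fun h1 h2 => isDM_add h1 h2
  zero_mem' := isDM_zero
  smul_mem' := fun c _ h => isDM_smul h c

/-- the coefficient at a word, on `dm` -/
noncomputable def cof (u : List (Fin 2)) : dmS →ₗ[ℚ] ℚ where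
  toFun ψ := co ψ.1 u
  map_add' P Q := co_add _ _ _
  map_smul' c P := co_smul _ _ _

theorem span_of {N : ℕ} (S : Finset (List (Fin 2)))
    (hS : ∀ ψ : A, IsDM ψ → (∀ v ∈ S, co ψ v = 0) → ∀ u, u.length = N → co ψ u = 0)
    (u : List (Fin 2)) (hu : u.length = N) :
    ∃ c : List (Fin 2) → ℚ, ∀ ψ : A, IsDM ψ → co ψ u = ∑ v ∈ S, c v * co ψ v := by
  classical
  have h1 : cof u ∈ Submodule.span ℚ (Set.range fun v : S => cof v.1) := by
    refine mem_span_of_iInf_ker_le_ker fun ψ hψ => ?_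
    rw [LinearMap.mem_ker]
    refine hS ψ.1 ψ.2 (fun v hv => ?_) u hu
    have := (Submodule.mem_iInf _).1 hψ ⟨v, hv⟩
    exact LinearMap.mem_ker.1 this
  obtain ⟨c, hc⟩ := (Submodule.mem_span_range_iff_exists_fun ℚ).1 h1
  refine ⟨fun v => if h : v ∈ S then c ⟨v, h⟩ else 0, fun ψ hψ => ?_⟩
  have h2 := congrArg (fun f => f ⟨ψ, hψ⟩) hc
  have h3 : (cof u) ⟨ψ, hψ⟩ = co ψ u := rfl
  rw [← h3, ← h2, ← Finset.sum_attach S]
  simp only [LinearMap.sum_apply, LinearMap.smul_apply, smul_eq_mul]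
  refine Finset.sum_congr rfl fun v _ => ?_
  rw [dif_pos v.2]
  rfl

end Pool.Agent.Y759.QS
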